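import Mathlib

set_option autoImplicit false

/-!
# Brodskii's quasivariety is strictly smaller than the class of locally indicable groups

A class of groups (living in `Type u`) is a predicate on groups.  `Qtilde` is the intersection of
all extension-closed quasivarieties containing the infinite cyclic group.  We show that there is a
two-generated locally indicable group which does not belong to `Qtilde`.

The idea: the quasi-identity
`r₁(a,b) = 1 ∧ r₂(a,b) = 1 → [a,b] = 1`,
where `r₁, r₂` are the two standard relators of Thompson's group `F`, defines an extension-closed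
quasivariety containing `ℤ`, while a copy of Thompson's group acting on the line by
piecewise affine maps is locally indicable and violates the quasi-identity.
-/

namespace Pool.Agent.Lib.MP_3b2c1c_al

universe u

/-! ## Classes of groups -/

/-- The normal subgroup of a product of groups consisting of the families that are equal to `1`
for `U`-almost all indices.  The ultraproduct of the groups `G i` along the ultrafilter `U` is the
quotient `(∀ i, G i) ⧸ ultraKer U G`. -/
def ultraKer {ι : Type u} (U : Ultrafilter ι) (G : ι → Type u) [∀ i, Group (G i)] :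
    Subgroup (∀ i, G i) where
  carrier := {f | ∀ᶠ i in (U : Filter ι), f i = 1}
  one_mem' := Filter.Eventually.of_forall fun _ => rfl
  mul_mem' := by
    intro f g hf hg
    filter_upwards [hf, hg] with i h1 h2
    simp [Pi.mul_apply, h1, h2]
  inv_mem' := by
    intro f hf
    filter_upwards [hf] with i h1
    simp [Pi.inv_apply, h1]

instance ultraKer_normal {ι : Type u} (U : Ultrafilter ι) (G : ι → Type u) [∀ i, Group (G i)] :
    (ultraKer U G).Normal := by
  constructor
  intro f hf g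
  change ∀ᶠ i in (U : Filter ι), (g * f * g⁻¹) i = 1
  have hf' : ∀ᶠ i in (U : Filter ι), f i = 1 := hf
  filter_upwards [hf'] with i h1
  simp [Pi.mul_apply, Pi.inv_apply, h1]

/-- A quasivariety of groups: a class of groups which contains the trivial group and is closed
under isomorphisms, subgroups, arbitrary direct products and ultraproducts. -/
structure IsQuasivariety (C : ∀ (G : Type u) [Group G], Prop) : Prop where
  trivial : C PUnit
  iso : ∀ (G H : Type u) [Group G] [Group H], Nonempty (G ≃* H) → C G → C H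
  subgroup : ∀ (G : Type u) [Group G] (H : Subgroup G), C G → C H
  product : ∀ (ι : Type u) (G : ι → Type u) [∀ i, Group (G i)], (∀ i, C (G i)) → C (∀ i, G i)
  ultraproduct : ∀ (ι : Type u) (U : Ultrafilter ι) (G : ι → Type u) [∀ i, Group (G i)],
    (∀ i, C (G i)) → C ((∀ i, G i) ⧸ ultraKer U G)

/-- A class of groups is extension-closed if a group `G` belongs to it as soon as some normal
subgroup `N` of `G` and the quotient `G ⧸ N` do. -/
def ExtensionClosed (C : ∀ (G : Type u) [Group G], Prop) : Prop :=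
  ∀ (G : Type u) [Group G] (N : Subgroup G) [N.Normal], C N → C (G ⧸ N) → C G

/-- Brodskii's quasivariety: the intersection of all extension-closed quasivarieties containing
the infinite cyclic group. -/
def Qtilde (G : Type u) [Group G] : Prop :=
  ∀ C : (∀ (H : Type u) [Group H], Prop),
    IsQuasivariety C → ExtensionClosed C → C (ULift.{u} (Multiplicative ℤ)) → C G

/-- A group is locally indicable if each of its nontrivial finitely generated subgroups admits an
epimorphism onto the infinite cyclic group. -/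
def LocallyIndicable (G : Type u) [Group G] : Prop :=
  ∀ H : Subgroup G, H.FG → H ≠ ⊥ → ∃ f : H →* Multiplicative ℤ, Function.Surjective f

/-! ### Sanity checks: `Qtilde` is the least extension-closed quasivariety containing `ℤ` -/

theorem isQuasivariety_Qtilde : IsQuasivariety.{u} (fun G [Group G] => Qtilde G) where
  trivial := fun _ hC _ _ => hC.trivial
  iso := fun G H _ _ e hG C hC hE hZ => hC.iso G H e (hG C hC hE hZ)
  subgroup := fun G _ H hG C hC hE hZ => hC.subgroup G H (hG C hC hE hZ)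
  product := fun ι G _ hG C hC hE hZ => hC.product ι G fun i => hG i C hC hE hZ
  ultraproduct := fun ι U G _ hG C hC hE hZ => hC.ultraproduct ι U G fun i => hG i C hC hE hZ

theorem extensionClosed_Qtilde : ExtensionClosed.{u} (fun G [Group G] => Qtilde G) :=
  fun G _ N _ hN hQ C hC hE hZ => hE G N (hN C hC hE hZ) (hQ C hC hE hZ)

theorem Qtilde_int : Qtilde (ULift.{u} (Multiplicative ℤ)) := fun _ _ _ hZ => hZ

theorem Qtilde_least (C : ∀ (H : Type u) [Group H], Prop) (hC : IsQuasivariety C)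
    (hE : ExtensionClosed C) (hZ : C (ULift.{u} (Multiplicative ℤ))) (G : Type u) [Group G]
    (hG : Qtilde G) : C G := hG C hC hE hZ

/-! ## The quasi-identity of Thompson's group -/

/-- The two relations of Thompson's group `F` for the pair `(a, b)`: writing
`bᵢ = aⁱ b a⁻ⁱ`, they are `b₀ b₁ = b₂ b₀` and `b₀ b₂ = b₃ b₀`. -/
def Rel {G : Type*} [Group G] (a b : G) : Prop :=
  b * (a * b * a⁻¹) = (a ^ 2 * b * (a ^ 2)⁻¹) * b ∧
  b * (a ^ 2 * b * (a ^ 2)⁻¹) = (a ^ 3 * b * (a ^ 3)⁻¹) * b

/-- The class of groups in which `Rel a b` implies that `a` and `b` commute. -/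
def TC (G : Type u) [Group G] : Prop := ∀ a b : G, Rel a b → a * b = b * a

theorem Rel.map {G H : Type*} [Group G] [Group H] (f : G →* H) {a b : G} (h : Rel a b) :
    Rel (f a) (f b) := by
  constructor
  · have := congrArg f h.1
    simpa using this
  · have := congrArg f h.2
    simpa using this

theorem Rel.of_map {G H : Type*} [Group G] [Group H] (f : G →* H) (hf : Function.Injective f)
    {a b : G} (h : Rel (f a) (f b)) : Rel a b := by
  constructor
  · apply hf
    simpa using h.1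
  · apply hf
    simpa using h.2


/-- Purely algebraic computation in Thompson's group. -/
theorem thompson_calc {G : Type*} [Group G] {y0 y1 y2 y3 y4 y5 : G}
    (h01 : y0 * y1 = y2 * y0) (h02 : y0 * y2 = y3 * y0) (h03 : y0 * y3 = y4 * y0)
    (h04 : y0 * y4 = y5 * y0) (h12 : y1 * y2 = y3 * y1) (h13 : y1 * y3 = y4 * y1)
    (h14 : y1 * y4 = y5 * y1) (h23 : y2 * y3 = y4 * y2) (h24 : y2 * y4 = y5 * y2)
    (h34 : y3 * y4 = y5 * y3) :
    Rel (y4⁻¹ * y0) (y4⁻¹ * y1) ∧
      (y4⁻¹ * y1) * (y4⁻¹ * y0) = (y1 * y2⁻¹) * ((y4⁻¹ * y0) * (y4⁻¹ * y1)) := by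
  have i04 : y0 * y4⁻¹ = y5⁻¹ * y0 := by
    rw [mul_inv_eq_iff_eq_mul, mul_assoc, h04, inv_mul_cancel_left]
  have i14 : y1 * y4⁻¹ = y5⁻¹ * y1 := by
    rw [mul_inv_eq_iff_eq_mul, mul_assoc, h14, inv_mul_cancel_left]
  have i24 : y2 * y4⁻¹ = y5⁻¹ * y2 := by
    rw [mul_inv_eq_iff_eq_mul, mul_assoc, h24, inv_mul_cancel_left]
  have i34 : y3 * y4⁻¹ = y5⁻¹ * y3 := by
    rw [mul_inv_eq_iff_eq_mul, mul_assoc, h34, inv_mul_cancel_left]
  set a := y4⁻¹ * y0 with ha
  set b := y4⁻¹ * y1 with hb
  -- the conjugates of `b` by powers of `a`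
  have e1 : a * b * a⁻¹ = y4⁻¹ * y2 := by
    rw [mul_inv_eq_iff_eq_mul]
    calc a * b = y4⁻¹ * (y0 * y4⁻¹) * y1 := by rw [ha, hb]; group
      _ = y4⁻¹ * y5⁻¹ * (y0 * y1) := by rw [i04]; group
      _ = y4⁻¹ * (y5⁻¹ * y2) * y0 := by rw [h01]; group
      _ = y4⁻¹ * y2 * a := by rw [← i24, ha]; group
  have e2 : a * (y4⁻¹ * y2) * a⁻¹ = y4⁻¹ * y3 := by
    rw [mul_inv_eq_iff_eq_mul]
    calc a * (y4⁻¹ * y2) = y4⁻¹ * (y0 * y4⁻¹) * y2 := by rw [ha]; group
      _ = y4⁻¹ * y5⁻¹ * (y0 * y2) := by rw [i04]; group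
      _ = y4⁻¹ * (y5⁻¹ * y3) * y0 := by rw [h02]; group
      _ = y4⁻¹ * y3 * a := by rw [← i34, ha]; group
  have e3 : a * (y4⁻¹ * y3) * a⁻¹ = y4⁻¹ * y5⁻¹ * y4 * y4 := by
    rw [mul_inv_eq_iff_eq_mul]
    calc a * (y4⁻¹ * y3) = y4⁻¹ * (y0 * y4⁻¹) * y3 := by rw [ha]; group
      _ = y4⁻¹ * y5⁻¹ * (y0 * y3) := by rw [i04]; group
      _ = y4⁻¹ * y5⁻¹ * y4 * y0 := by rw [h03]; group
      _ = y4⁻¹ * y5⁻¹ * y4 * y4 * a := by rw [ha]; group
  have p1 : a * b * a⁻¹ = y4⁻¹ * y2 := e1
  have p2 : a ^ 2 * b * (a ^ 2)⁻¹ = y4⁻¹ * y3 := by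
    calc a ^ 2 * b * (a ^ 2)⁻¹ = a * (a * b * a⁻¹) * a⁻¹ := by
          simp only [pow_succ', pow_zero, mul_one, mul_inv_rev, mul_assoc]
      _ = y4⁻¹ * y3 := by rw [e1, e2]
  have p3 : a ^ 3 * b * (a ^ 3)⁻¹ = y4⁻¹ * y5⁻¹ * y4 * y4 := by
    calc a ^ 3 * b * (a ^ 3)⁻¹ = a * (a ^ 2 * b * (a ^ 2)⁻¹) * a⁻¹ := by
          simp only [pow_succ', pow_zero, mul_one, mul_inv_rev, mul_assoc]
      _ = y4⁻¹ * y5⁻¹ * y4 * y4 := by rw [p2, e3]
  have hrel : Rel a b := by
    constructor
    · rw [p1, p2]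
      calc b * (y4⁻¹ * y2) = y4⁻¹ * (y1 * y4⁻¹) * y2 := by rw [hb]; group
        _ = y4⁻¹ * y5⁻¹ * (y1 * y2) := by rw [i14]; group
        _ = y4⁻¹ * (y5⁻¹ * y3) * y1 := by rw [h12]; group
        _ = y4⁻¹ * y3 * b := by rw [← i34, hb]; group
    · rw [p2, p3]
      calc b * (y4⁻¹ * y3) = y4⁻¹ * (y1 * y4⁻¹) * y3 := by rw [hb]; group
        _ = y4⁻¹ * y5⁻¹ * (y1 * y3) := by rw [i14]; group
        _ = y4⁻¹ * y5⁻¹ * y4 * y1 := by rw [h13]; group
        _ = y4⁻¹ * y5⁻¹ * y4 * y4 * b := by rw [hb]; group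
  refine ⟨hrel, ?_⟩
  -- `u = y1 * y2⁻¹` commutes with `y4` and `y5`
  have c4 : (y1 * y2⁻¹) * y4⁻¹ = y4⁻¹ * (y1 * y2⁻¹) := by
    have : y4 * (y1 * y2⁻¹) = (y1 * y2⁻¹) * y4 := by
      calc y4 * (y1 * y2⁻¹) = (y4 * y1) * y2⁻¹ := by group
        _ = y1 * y2⁻¹ * (y2 * y3) * y2⁻¹ := by rw [← h13]; group
        _ = (y1 * y2⁻¹) * y4 := by rw [h23]; group
    calc (y1 * y2⁻¹) * y4⁻¹ = y4⁻¹ * (y4 * (y1 * y2⁻¹)) * y4⁻¹ := by group
      _ = y4⁻¹ * (y1 * y2⁻¹) := by rw [this]; group
  have c5 : (y1 * y2⁻¹) * y5⁻¹ = y5⁻¹ * (y1 * y2⁻¹) := by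
    have : y5 * (y1 * y2⁻¹) = (y1 * y2⁻¹) * y5 := by
      calc y5 * (y1 * y2⁻¹) = (y5 * y1) * y2⁻¹ := by group
        _ = y1 * y2⁻¹ * (y2 * y4) * y2⁻¹ := by rw [← h14]; group
        _ = (y1 * y2⁻¹) * y5 := by rw [h24]; group
    calc (y1 * y2⁻¹) * y5⁻¹ = y5⁻¹ * (y5 * (y1 * y2⁻¹)) * y5⁻¹ := by group
      _ = y5⁻¹ * (y1 * y2⁻¹) := by rw [this]; group
  have lhs : b * a = y4⁻¹ * y5⁻¹ * y1 * y0 := by
    calc b * a = y4⁻¹ * (y1 * y4⁻¹) * y0 := by rw [ha, hb]; group
      _ = y4⁻¹ * y5⁻¹ * y1 * y0 := by rw [i14]; group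
  have rhs : a * b = y4⁻¹ * y5⁻¹ * y2 * y0 := by
    calc a * b = y4⁻¹ * (y0 * y4⁻¹) * y1 := by rw [ha, hb]; group
      _ = y4⁻¹ * y5⁻¹ * (y0 * y1) := by rw [i04]; group
      _ = y4⁻¹ * y5⁻¹ * y2 * y0 := by rw [h01]; group
  rw [lhs, rhs]
  calc y4⁻¹ * y5⁻¹ * y1 * y0 = y4⁻¹ * (y5⁻¹ * (y1 * y2⁻¹)) * y2 * y0 := by group
    _ = y4⁻¹ * (y1 * y2⁻¹) * y5⁻¹ * y2 * y0 := by rw [← c5]; group
    _ = (y1 * y2⁻¹) * (y4⁻¹ * y5⁻¹ * y2 * y0) := by rw [← c4]; group

/-- If `(a, b)` satisfies Thompson's relations and `N` is a normal subgroup modulo which `a` and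
`b` commute, then `N` contains a pair satisfying Thompson's relations which commutes only if
`a` and `b` commute. -/
theorem exists_rel_mem {G : Type*} [Group G] {a b : G} (h : Rel a b) (N : Subgroup G) [N.Normal]
    (hN : (QuotientGroup.mk a : G ⧸ N) * QuotientGroup.mk b =
      QuotientGroup.mk b * QuotientGroup.mk a) :
    ∃ a' b' : N, Rel a' b' ∧ (a' * b' = b' * a' → a * b = b * a) := by
  -- the conjugates
  obtain ⟨y, hy⟩ : ∃ y : ℕ → G, ∀ n, y n = a ^ n * b * (a ^ n)⁻¹ := ⟨_, fun _ => rfl⟩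
  have hsucc : ∀ n, y (n + 1) = a * y n * a⁻¹ := by
    intro n
    rw [hy, hy, pow_succ']
    group
  have hshift : ∀ k n m, y k * y n = y m * y k → y (k + 1) * y (n + 1) = y (m + 1) * y (k + 1) := by
    intro k n m hk
    rw [hsucc k, hsucc n, hsucc m]
    calc a * y k * a⁻¹ * (a * y n * a⁻¹) = a * (y k * y n) * a⁻¹ := by group
      _ = a * (y m * y k) * a⁻¹ := by rw [hk]
      _ = _ := by group
  have y0 : y 0 = b := by rw [hy]; simp
  have y1 : y 1 = a * b * a⁻¹ := by rw [hy]; simp
  have h01 : y 0 * y 1 = y 2 * y 0 := by rw [y0, y1, hy 2]; exact h.1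
  have h02 : y 0 * y 2 = y 3 * y 0 := by rw [y0, hy 2, hy 3]; exact h.2
  have h12 := hshift 0 1 2 h01
  have h23 := hshift 1 2 3 h12
  have h34 := hshift 2 3 4 h23
  have h13 := hshift 0 2 3 h02
  have h24 := hshift 1 3 4 h13
  norm_num at h12 h23 h34 h13 h24
  have h03 : y 0 * y 3 = y 4 * y 0 := by
    have e3 : y 3 = y 1 * y 2 * (y 1)⁻¹ := by rw [h12]; group
    have e4 : y 4 = y 2 * y 3 * (y 2)⁻¹ := by rw [h23]; group
    have e2 : y 0 * (y 1)⁻¹ = (y 2)⁻¹ * y 0 := by
      rw [mul_inv_eq_iff_eq_mul, mul_assoc, h01, inv_mul_cancel_left]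
    rw [e3, e4]
    calc y 0 * (y 1 * y 2 * (y 1)⁻¹) = (y 0 * y 1) * y 2 * (y 1)⁻¹ := by group
      _ = y 2 * (y 0 * y 2) * (y 1)⁻¹ := by rw [h01]; group
      _ = y 2 * y 3 * (y 0 * (y 1)⁻¹) := by rw [h02]; group
      _ = y 2 * y 3 * (y 2)⁻¹ * y 0 := by rw [e2]; group
  have h04 : y 0 * y 4 = y 5 * y 0 := by
    have e4 : y 4 = y 1 * y 3 * (y 1)⁻¹ := by rw [h13]; group
    have e5 : y 5 = y 2 * y 4 * (y 2)⁻¹ := by rw [h24]; group
    have e2 : y 0 * (y 1)⁻¹ = (y 2)⁻¹ * y 0 := by
      rw [mul_inv_eq_iff_eq_mul, mul_assoc, h01, inv_mul_cancel_left]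
    rw [e5]
    calc y 0 * y 4 = y 0 * (y 1 * y 3 * (y 1)⁻¹) := by rw [← e4]
      _ = (y 0 * y 1) * y 3 * (y 1)⁻¹ := by group
      _ = y 2 * (y 0 * y 3) * (y 1)⁻¹ := by rw [h01]; group
      _ = y 2 * y 4 * (y 0 * (y 1)⁻¹) := by rw [h03]; group
      _ = y 2 * y 4 * (y 2)⁻¹ * y 0 := by rw [e2]; group
  have h14 := hshift 0 3 4 h03
  norm_num at h14
  obtain ⟨hrel, hcomm⟩ := thompson_calc h01 h02 h03 h04 h12 h13 h14 h23 h24 h34
  -- membership in `N`
  have hmk : ∀ n, (QuotientGroup.mk (y n) : G ⧸ N) = QuotientGroup.mk b := by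
    intro n
    induction n with
    | zero => rw [y0]
    | succ n ih =>
      rw [hsucc, QuotientGroup.mk_mul, QuotientGroup.mk_mul, ih, hN, QuotientGroup.mk_inv,
        mul_inv_cancel_right]
  have hmem : ∀ n, (y 4)⁻¹ * y n ∈ N := by
    intro n
    rw [← QuotientGroup.eq, hmk, hmk]
  refine ⟨⟨(y 4)⁻¹ * y 0, hmem 0⟩, ⟨(y 4)⁻¹ * y 1, hmem 1⟩, ?_, ?_⟩
  · exact Rel.of_map N.subtype N.subtype_injective hrel
  · intro hc
    have hc' : ((y 4)⁻¹ * y 0) * ((y 4)⁻¹ * y 1) = ((y 4)⁻¹ * y 1) * ((y 4)⁻¹ * y 0) :=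
      congrArg Subtype.val hc
    rw [← hc'] at hcomm
    have h1 : y 1 * (y 2)⁻¹ = 1 := by
      have := hcomm.symm
      exact mul_eq_right.mp this
    have h2 : y 1 = y 2 := mul_inv_eq_one.mp h1
    rw [hsucc 1, hsucc 0, y0] at h2
    have h3 : b = a * b * a⁻¹ := by
      have h4 : a * b * a⁻¹ = a * (a * b * a⁻¹) * a⁻¹ := h2
      have h5 := mul_right_cancel h4
      exact mul_left_cancel h5
    calc a * b = (a * b * a⁻¹) * a := by group
      _ = b * a := by rw [← h3]

/-! ## `TC` is an extension-closed quasivariety containing `ℤ` -/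

theorem TC_of_comm (G : Type u) [Group G] (h : ∀ a b : G, a * b = b * a) : TC G :=
  fun a b _ => h a b

theorem isQuasivariety_TC : IsQuasivariety.{u} (fun G [Group G] => TC G) where
  trivial := TC_of_comm _ fun _ _ => rfl
  iso := by
    rintro G H _ _ ⟨e⟩ hG a b hab
    have := hG (e.symm a) (e.symm b) (hab.map e.symm.toMonoidHom)
    apply e.symm.injective
    simpa using this
  subgroup := by
    intro G _ H hG a b hab
    have := hG (a : G) (b : G) (hab.map H.subtype)
    exact Subtype.ext this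
  product := by
    intro ι G _ hG a b hab
    funext i
    exact hG i (a i) (b i) (hab.map (Pi.evalMonoidHom G i))
  ultraproduct := by
    intro ι U G _ hG a b hab
    induction a using QuotientGroup.induction_on with
    | H a =>
    induction b using QuotientGroup.induction_on with
    | H b =>
    have key : ∀ p q : (∀ i, G i), ((p : (∀ i, G i) ⧸ ultraKer U G) = q) ↔
        ∀ᶠ i in (U : Filter ι), p i = q i := by
      intro p q
      rw [QuotientGroup.eq]
      change (∀ᶠ i in (U : Filter ι), (p⁻¹ * q) i = 1) ↔ _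
      constructor
      · intro h
        filter_upwards [h] with i hi
        have : (p i)⁻¹ * q i = 1 := hi
        exact inv_mul_eq_one.mp this
      · intro h
        filter_upwards [h] with i hi
        change (p i)⁻¹ * q i = 1
        rw [hi]
        group
    have h1 := (key (b * (a * b * a⁻¹)) ((a ^ 2 * b * (a ^ 2)⁻¹) * b)).mp hab.1
    have h2 := (key (b * (a ^ 2 * b * (a ^ 2)⁻¹)) ((a ^ 3 * b * (a ^ 3)⁻¹) * b)).mp hab.2
    apply (key (a * b) (b * a)).mpr
    filter_upwards [h1, h2] with i e1 e2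
    exact hG i (a i) (b i) ⟨e1, e2⟩

theorem extensionClosed_TC : ExtensionClosed.{u} (fun G [Group G] => TC G) := by
  intro G _ N _ hN hQ a b hab
  have h1 := hQ (QuotientGroup.mk a) (QuotientGroup.mk b) (hab.map (QuotientGroup.mk' N))
  obtain ⟨a', b', hrel, himp⟩ := exists_rel_mem hab N h1
  exact himp (hN a' b' hrel)

theorem TC_int : TC (ULift.{u} (Multiplicative ℤ)) := TC_of_comm _ fun a b => mul_comm a b

theorem TC_of_Qtilde (G : Type u) [Group G] (hG : Qtilde G) : TC G :=
  hG _ isQuasivariety_TC extensionClosed_TC TC_int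

/-! ## A locally indicable group of piecewise affine maps -/

/-- The group of order automorphisms of the real line which are the identity near `-∞` and which
are affine on a small interval to the right of every point. -/
def PL : Subgroup (ℝ ≃o ℝ) where
  carrier := {f | (∃ M : ℝ, ∀ x ≤ M, f x = x) ∧
    ∀ x : ℝ, ∃ s : ℝ, 0 < s ∧ ∃ ε : ℝ, 0 < ε ∧ ∀ y, x ≤ y → y < x + ε → f y = f x + s * (y - x)}
  one_mem' := by
    refine ⟨⟨0, fun x _ => rfl⟩, fun x => ⟨1, one_pos, 1, one_pos, fun y _ _ => ?_⟩⟩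
    change y = x + 1 * (y - x)
    ring
  mul_mem' := by
    rintro f g ⟨⟨M, hM⟩, hf⟩ ⟨⟨K, hK⟩, hg⟩
    refine ⟨⟨min M K, fun x hx => ?_⟩, fun x => ?_⟩
    · change f (g x) = x
      rw [hK x (hx.trans (min_le_right _ _)), hM x (hx.trans (min_le_left _ _))]
    · obtain ⟨s, hs, ε, hε, h1⟩ := hg x
      obtain ⟨t, ht, δ, hδ, h2⟩ := hf (g x)
      refine ⟨t * s, mul_pos ht hs, min ε (δ / s), lt_min hε (div_pos hδ hs), fun y hxy hy => ?_⟩
      have hy1 : y < x + ε := lt_of_lt_of_le hy (by gcongr; exact min_le_left _ _)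
      have hy2 : y < x + δ / s := lt_of_lt_of_le hy (by gcongr; exact min_le_right _ _)
      have e1 := h1 y hxy hy1
      have hle : g x ≤ g y := g.monotone hxy
      have hlt : g y < g x + δ := by
        rw [e1]
        have : s * (y - x) < δ := by
          have h3 : y - x < δ / s := by linarith
          rw [lt_div_iff₀ hs] at h3
          linarith
        linarith
      have e2 := h2 (g y) hle hlt
      change f (g y) = f (g x) + t * s * (y - x)
      rw [e2, e1]
      ring
  inv_mem' := by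
    rintro f ⟨⟨M, hM⟩, hf⟩
    refine ⟨⟨M, fun x hx => ?_⟩, fun x => ?_⟩
    · change f.symm x = x
      rw [OrderIso.symm_apply_eq, hM x hx]
    · obtain ⟨s, hs, ε, hε, h1⟩ := hf (f.symm x)
      refine ⟨1 / s, by positivity, s * ε, by positivity, fun y hxy hy => ?_⟩
      change f.symm y = f.symm x + 1 / s * (y - x)
      have h2 := h1 (f.symm x + 1 / s * (y - x))
        (by
          have : 0 ≤ 1 / s * (y - x) := mul_nonneg (by positivity) (by linarith)
          linarith)
        (by
          have h3 : (y - x) / s < ε := by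
            rw [div_lt_iff₀ hs]
            linarith
          have h4 : 1 / s * (y - x) = (y - x) / s := by ring
          rw [h4]
          linarith)
      rw [OrderIso.symm_apply_eq, h2, OrderIso.apply_symm_apply]
      field_simp
      ring

/-- A finitely generated group with a nontrivial homomorphism to `ℝ` maps onto `ℤ`. -/
theorem exists_surj_int {H : Type*} [Group H] [Group.FG H] (L : H →* Multiplicative ℝ)
    (hL : ∃ h, L h ≠ 1) : ∃ f : H →* Multiplicative ℤ, Function.Surjective f := by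
  classical
  let L' : Additive H →+ ℝ := MonoidHom.toAdditiveLeft L
  have hfg : AddGroup.FG L'.range := AddGroup.fg_range L'
  have hfin : Module.Finite ℤ L'.range := Module.Finite.iff_addGroup_fg.mpr hfg
  have hfree : Module.Free ℤ L'.range := inferInstance
  let b := Module.Free.chooseBasis ℤ L'.range
  obtain ⟨h, hh⟩ := hL
  have hne : L'.rangeRestrict (Additive.ofMul h) ≠ 0 := by
    intro h0
    apply hh
    have h1 : L' (Additive.ofMul h) = 0 := congrArg Subtype.val h0
    exact Multiplicative.toAdd.injective h1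
  -- some coordinate function does not vanish, in particular there is an index
  obtain ⟨i⟩ : Nonempty (Module.Free.ChooseBasisIndex ℤ L'.range) := by
    by_contra hemp
    rw [not_nonempty_iff] at hemp
    apply hne
    have := b.ext_elem (x := L'.rangeRestrict (Additive.ofMul h)) (y := 0)
      (fun i => hemp.elim i)
    exact this
  let g : Additive H →+ ℤ := (b.coord i).toAddMonoidHom.comp L'.rangeRestrict
  have hg : Function.Surjective g := by
    intro n
    obtain ⟨x, hx⟩ := L'.rangeRestrict_surjective (n • b i)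
    refine ⟨x, ?_⟩
    change b.coord i (L'.rangeRestrict x) = n
    rw [hx]
    simp
  refine ⟨MonoidHom.toAdditiveLeft.symm g, fun n => ?_⟩
  obtain ⟨x, hx⟩ := hg (Multiplicative.toAdd n)
  exact ⟨Additive.toMul x, hx⟩

/-- The right slope at `p` of an element of `PL`. -/
noncomputable def slope (p : ℝ) (f : PL) : ℝ := Classical.choose (f.2.2 p)

theorem slope_pos (p : ℝ) (f : PL) : 0 < slope p f := (Classical.choose_spec (f.2.2 p)).1

theorem slope_spec (p : ℝ) (f : PL) : ∃ ε : ℝ, 0 < ε ∧ ∀ y, p ≤ y → y < p + ε →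
    (f : ℝ ≃o ℝ) y = (f : ℝ ≃o ℝ) p + slope p f * (y - p) := (Classical.choose_spec (f.2.2 p)).2

theorem slope_unique (p : ℝ) (f : PL) (s : ℝ) (h : ∃ ε : ℝ, 0 < ε ∧ ∀ y, p ≤ y → y < p + ε →
    (f : ℝ ≃o ℝ) y = (f : ℝ ≃o ℝ) p + s * (y - p)) : slope p f = s := by
  obtain ⟨ε, hε, h1⟩ := h
  obtain ⟨δ, hδ, h2⟩ := slope_spec p f
  have hm : 0 < min ε δ / 2 := by positivity
  have e1 := h1 (p + min ε δ / 2) (by linarith) (by linarith [min_le_left ε δ])
  have e2 := h2 (p + min ε δ / 2) (by linarith) (by linarith [min_le_right ε δ])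
  rw [e1] at e2
  have e3 : s * (min ε δ / 2) = slope p f * (min ε δ / 2) := by linarith
  exact (mul_right_cancel₀ hm.ne' e3).symm

theorem slope_mul (p : ℝ) (f g : PL) (hg : (g : ℝ ≃o ℝ) p = p) :
    slope p (f * g) = slope p f * slope p g := by
  apply slope_unique
  obtain ⟨ε, hε, h1⟩ := slope_spec p g
  obtain ⟨δ, hδ, h2⟩ := slope_spec p f
  have hs := slope_pos p g
  refine ⟨min ε (δ / slope p g), lt_min hε (div_pos hδ hs), fun y hy hy' => ?_⟩
  have e1 := h1 y hy (by linarith [min_le_left ε (δ / slope p g)])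
  rw [hg] at e1
  have h3 : y - p < δ / slope p g := by linarith [min_le_right ε (δ / slope p g)]
  rw [lt_div_iff₀ hs] at h3
  have h4 : 0 ≤ slope p g * (y - p) := mul_nonneg hs.le (by linarith)
  have e2 := h2 ((g : ℝ ≃o ℝ) y) (by rw [e1]; linarith) (by rw [e1]; linarith)
  change (f : ℝ ≃o ℝ) ((g : ℝ ≃o ℝ) y) = (f : ℝ ≃o ℝ) ((g : ℝ ≃o ℝ) p) + _
  rw [e2, hg, e1]
  ring

/-- `PL` is locally indicable (stated for subgroups of `PL`). -/
theorem PL_indicable (H : Subgroup PL) (hfg : H.FG) (hne : H ≠ ⊥) :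
    ∃ f : H →* Multiplicative ℤ, Function.Surjective f := by
  classical
  obtain ⟨S, hS⟩ := hfg
  -- some generator is nontrivial
  have hex : ∃ f ∈ S, f ≠ 1 := by
    by_contra hcon
    push Not at hcon
    apply hne
    rw [← hS, Subgroup.closure_eq_bot_iff]
    intro f hf
    exact hcon f hf
  -- the set of points moved by some generator
  let X : Set ℝ := {x | ∃ f ∈ S, (f : ℝ ≃o ℝ) x ≠ x}
  have hXne : X.Nonempty := by
    obtain ⟨f, hf, hf1⟩ := hex
    by_contra hcon
    rw [Set.not_nonempty_iff_eq_empty] at hcon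
    apply hf1
    apply Subtype.ext
    apply RelIso.ext
    intro x
    by_contra hx
    have : x ∈ X := ⟨f, hf, hx⟩
    rw [hcon] at this
    exact this
  have hXbdd : BddBelow X := by
    have : ∀ T : Finset PL, ∃ M : ℝ, ∀ f ∈ T, ∀ x ≤ M, (f : ℝ ≃o ℝ) x = x := by
      intro T
      induction T using Finset.induction_on with
      | empty => exact ⟨0, by simp⟩
      | insert a T ha ih =>
        obtain ⟨M, hM⟩ := ih
        obtain ⟨K, hK⟩ := a.2.1
        refine ⟨min M K, fun f hf x hx => ?_⟩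
        rcases Finset.mem_insert.mp hf with rfl | hf
        · exact hK x (hx.trans (min_le_right _ _))
        · exact hM f hf x (hx.trans (min_le_left _ _))
    obtain ⟨M, hM⟩ := this S
    refine ⟨M, ?_⟩
    rintro x ⟨f, hf, hx⟩
    by_contra hcon
    push Not at hcon
    exact hx (hM f hf x hcon.le)
  obtain ⟨p, hp⟩ : ∃ p, p = sInf X := ⟨_, rfl⟩
  have hfixlt : ∀ f ∈ S, ∀ x < p, (f : ℝ ≃o ℝ) x = x := by
    intro f hf x hx
    by_contra hcon
    have : p ≤ x := hp ▸ csInf_le hXbdd ⟨f, hf, hcon⟩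
    linarith
  have hfix : ∀ f ∈ S, (f : ℝ ≃o ℝ) p = p := by
    intro f hf
    rcases lt_trichotomy ((f : ℝ ≃o ℝ) p) p with h | h | h
    · exfalso
      obtain ⟨x, hx1, hx2⟩ := exists_between h
      have e1 := hfixlt f hf x hx2
      have e2 : (f : ℝ ≃o ℝ) x < (f : ℝ ≃o ℝ) p := (f : ℝ ≃o ℝ).strictMono hx2
      rw [e1] at e2
      linarith
    · exact h
    · exfalso
      obtain ⟨y, hy1, hy2⟩ := exists_between h
      have e1 : (f : ℝ ≃o ℝ).symm y < p := by
        rw [OrderIso.symm_apply_lt]  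
        exact hy2
      have e2 := hfixlt f hf _ e1
      rw [OrderIso.apply_symm_apply] at e2
      linarith
  have hfixH : ∀ f ∈ H, (f : ℝ ≃o ℝ) p = p := by
    intro f hf
    rw [← hS] at hf
    induction hf using Subgroup.closure_induction with
    | mem x hx => exact hfix x hx
    | one => rfl
    | mul x y _ _ hx hy =>
      change (x : ℝ ≃o ℝ) ((y : ℝ ≃o ℝ) p) = p
      rw [hy, hx]
    | inv x _ hx =>
      change (x : ℝ ≃o ℝ).symm p = p
      rw [OrderIso.symm_apply_eq, hx]
  -- the logarithm of the slope at `p`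
  let L : H →* Multiplicative ℝ :=
    { toFun := fun f => Multiplicative.ofAdd (Real.log (slope p f))
      map_one' := by
        have : slope p ((1 : H) : PL) = 1 :=
          slope_unique p _ 1 ⟨1, one_pos, fun y _ _ => by
            change y = p + 1 * (y - p)
            ring⟩
        rw [this, Real.log_one]
        rfl
      map_mul' := by
        intro f g
        have h1 : slope p ((f * g : H) : PL) = slope p f * slope p g :=
          slope_mul p f g (hfixH g g.2)
        rw [h1, Real.log_mul (slope_pos p f).ne' (slope_pos p g).ne']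
        rfl }
  have hHfg : Group.FG H := (Group.fg_iff_subgroup_fg H).mpr ⟨S, hS⟩
  apply exists_surj_int L
  -- some generator has slope `≠ 1` at `p`
  by_contra hcon
  push Not at hcon
  have hslope : ∀ f ∈ S, slope p f = 1 := by
    intro f hf
    have hfH : f ∈ H := hS ▸ Subgroup.subset_closure hf
    have h1 : Real.log (slope p f) = 0 := Multiplicative.ofAdd.injective (hcon ⟨f, hfH⟩)
    exact Real.eq_one_of_pos_of_log_eq_zero (slope_pos p f) h1
  have huni : ∀ T : Finset PL, (∀ f ∈ T, (f : ℝ ≃o ℝ) p = p ∧ slope p f = 1) →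
      ∃ ε : ℝ, 0 < ε ∧ ∀ f ∈ T, ∀ y, p ≤ y → y < p + ε → (f : ℝ ≃o ℝ) y = y := by
    intro T
    induction T using Finset.induction_on with
    | empty => intro _; exact ⟨1, one_pos, by simp⟩
    | insert a T ha ih =>
      intro hT
      obtain ⟨ε, hε, h1⟩ := ih fun f hf => hT f (Finset.mem_insert_of_mem hf)
      obtain ⟨hap, has⟩ := hT a (Finset.mem_insert_self a T)
      obtain ⟨δ, hδ, h2⟩ := slope_spec p a
      refine ⟨min ε δ, lt_min hε hδ, fun f hf y hy hy' => ?_⟩
      rcases Finset.mem_insert.mp hf with rfl | hf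
      · rw [h2 y hy (by linarith [min_le_right ε δ]), hap, has]
        ring
      · exact h1 f hf y hy (by linarith [min_le_left ε δ])
  obtain ⟨ε, hε, h1⟩ := huni S fun f hf => ⟨hfix f hf, hslope f hf⟩
  have h2 : p + ε ≤ p := by
    conv_rhs => rw [hp]
    apply le_csInf hXne
    rintro x ⟨f, hf, hx⟩
    by_contra hlt
    push Not at hlt
    apply hx
    rcases lt_or_ge x p with h | h
    · exact hfixlt f hf x h
    · exact h1 f hf x h hlt
  linarith

/-! ## Thompson's group inside `PL` -/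

/-- The map `x ↦ x` for `x ≤ c`, `x ↦ c + 2 (x - c)` for `c ≤ x ≤ c + 1`, `x ↦ x + 1` for
`c + 1 ≤ x`. -/
noncomputable def bFun (c x : ℝ) : ℝ := x + min 1 (max 0 (x - c))

theorem bFun_of_le {c x : ℝ} (h : x ≤ c) : bFun c x = x := by
  unfold bFun
  rw [max_eq_left (by linarith), min_eq_right (by norm_num), add_zero]

theorem bFun_of_mid {c x : ℝ} (h1 : c ≤ x) (h2 : x ≤ c + 1) : bFun c x = c + 2 * (x - c) := by
  unfold bFun
  rw [max_eq_right (by linarith), min_eq_right (by linarith)]
  ring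

theorem bFun_of_ge {c x : ℝ} (h : c + 1 ≤ x) : bFun c x = x + 1 := by
  unfold bFun
  rw [max_eq_right (by linarith), min_eq_left (by linarith)]

theorem bFun_strictMono (c : ℝ) : StrictMono (bFun c) := by
  intro x y hxy
  unfold bFun
  have : min 1 (max 0 (x - c)) ≤ min 1 (max 0 (y - c)) := by gcongr
  linarith

/-- The order automorphism of the real line with underlying function `bFun c`. -/
noncomputable def bIso (c : ℝ) : ℝ ≃o ℝ :=
  StrictMono.orderIsoOfRightInverse (bFun c) (bFun_strictMono c)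
    (fun y => y - min 1 (max 0 ((y - c) / 2))) (by
      intro y
      beta_reduce
      rcases le_total y c with h | h
      · have : y - min 1 (max 0 ((y - c) / 2)) = y := by
          rw [max_eq_left (by linarith), min_eq_right (by norm_num), sub_zero]
        rw [this, bFun_of_le h]
      · rcases le_total y (c + 2) with h' | h'
        · have : y - min 1 (max 0 ((y - c) / 2)) = c + (y - c) / 2 := by
            rw [max_eq_right (by linarith), min_eq_right (by linarith)]
            ring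
          rw [this, bFun_of_mid (by linarith) (by linarith)]
          ring
        · have : y - min 1 (max 0 ((y - c) / 2)) = y - 1 := by
            rw [max_eq_right (by linarith), min_eq_left (by linarith)]
          rw [this, bFun_of_ge (by linarith)]
          ring)

theorem bIso_apply (c x : ℝ) : bIso c x = bFun c x := rfl

theorem bIso_mem (c : ℝ) : bIso c ∈ PL := by
  refine ⟨⟨c, fun x hx => bFun_of_le hx⟩, fun x => ?_⟩
  simp only [bIso_apply]
  rcases lt_or_ge x c with h | h
  · refine ⟨1, one_pos, c - x, by linarith, fun y h1 h2 => ?_⟩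
    rw [bFun_of_le h.le, bFun_of_le (by linarith)]
    ring
  · rcases lt_or_ge x (c + 1) with h' | h'
    · refine ⟨2, two_pos, c + 1 - x, by linarith, fun y h1 h2 => ?_⟩
      rw [bFun_of_mid h h'.le, bFun_of_mid (by linarith) (by linarith)]
      ring
    · refine ⟨1, one_pos, 1, one_pos, fun y h1 h2 => ?_⟩
      rw [bFun_of_ge h', bFun_of_ge (by linarith)]
      ring

/-- The elements `x ↦ bFun c x` of `PL`. -/
noncomputable def B (c : ℝ) : PL := ⟨bIso c, bIso_mem c⟩

theorem B_mul (k n : ℝ) (h : k + 1 ≤ n) : B k * B n = B (n + 1) * B k := by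
  apply Subtype.ext
  apply RelIso.ext
  intro x
  change bFun k (bFun n x) = bFun (n + 1) (bFun k x)
  rcases le_total x n with h1 | h1
  · rw [bFun_of_le h1, bFun_of_le (c := n + 1)]
    have : bFun k x ≤ x + 1 := by
      unfold bFun
      gcongr
      exact min_le_left _ _
    linarith
  · have hx : k + 1 ≤ x := by linarith
    have h2 : x ≤ bFun n x := by
      unfold bFun
      have : 0 ≤ min 1 (max 0 (x - n)) := by positivity
      linarith
    rw [bFun_of_ge (c := k) (by linarith), bFun_of_ge (c := k) hx]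
    unfold bFun
    have : x + 1 - (n + 1) = x - n := by ring
    rw [this]
    ring

theorem B_conj (k n : ℝ) (h : k + 1 ≤ n) : B k * B n * (B k)⁻¹ = B (n + 1) := by
  rw [mul_inv_eq_iff_eq_mul]
  exact B_mul k n h

theorem B_rel : Rel (B 0) (B 1) := by
  have e1 : B 0 * B 1 * (B 0)⁻¹ = B 2 := by
    rw [B_conj 0 1 (by norm_num)]
    norm_num
  have e2 : (B 0) ^ 2 * B 1 * ((B 0) ^ 2)⁻¹ = B 3 := by
    calc (B 0) ^ 2 * B 1 * ((B 0) ^ 2)⁻¹ = B 0 * (B 0 * B 1 * (B 0)⁻¹) * (B 0)⁻¹ := by
          simp only [pow_succ', pow_zero, mul_one, mul_inv_rev, mul_assoc]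
      _ = B (2 + 1) := by rw [e1, B_conj 0 2 (by norm_num)]
      _ = B 3 := by norm_num
  have e3 : (B 0) ^ 3 * B 1 * ((B 0) ^ 3)⁻¹ = B 4 := by
    calc (B 0) ^ 3 * B 1 * ((B 0) ^ 3)⁻¹ =
        B 0 * ((B 0) ^ 2 * B 1 * ((B 0) ^ 2)⁻¹) * (B 0)⁻¹ := by
          simp only [pow_succ', pow_zero, mul_one, mul_inv_rev, mul_assoc]
      _ = B (3 + 1) := by rw [e2, B_conj 0 3 (by norm_num)]
      _ = B 4 := by norm_num
  constructor
  · rw [e1, e2, B_mul 1 2 (by norm_num)]
    norm_num
  · rw [e2, e3, B_mul 1 3 (by norm_num)]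
    norm_num

theorem B_not_comm : B 0 * B 1 ≠ B 1 * B 0 := by
  rw [B_mul 0 1 (by norm_num)]
  intro h
  have h1 : B (1 + 1) = B 1 := mul_right_cancel h
  have h2 := congrArg (fun f : PL => (f : ℝ ≃o ℝ) 2) h1
  change bFun (1 + 1) 2 = bFun 1 2 at h2
  rw [bFun_of_le (by norm_num), bFun_of_ge (by norm_num)] at h2
  norm_num at h2

/-- The subgroup of `PL` generated by `B 0` and `B 1` (a copy of Thompson's group `F`). -/
noncomputable def F0 : Subgroup PL := Subgroup.closure {B 0, B 1}

theorem locallyIndicable_of_injective {G : Type u} [Group G] (f : G →* PL)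
    (hf : Function.Injective f) : LocallyIndicable G := by
  intro H hfg hne
  have h1 : (H.map f).FG := by
    obtain ⟨S, hS⟩ := hfg
    classical
    refine ⟨S.image f, ?_⟩
    rw [← hS, MonoidHom.map_closure, Finset.coe_image]
  have h2 : H.map f ≠ ⊥ := by
    intro h
    apply hne
    rwa [Subgroup.map_eq_bot_iff_of_injective _ hf] at h
  obtain ⟨g, hg⟩ := PL_indicable (H.map f) h1 h2
  refine ⟨g.comp (H.equivMapOfInjective f hf).toMonoidHom, ?_⟩
  exact hg.comp (H.equivMapOfInjective f hf).surjective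

/-- **Main theorem.** There is a two-generated locally indicable group which does not belong to
the smallest extension-closed quasivariety containing `ℤ`.  In particular the conjectured
equality between that quasivariety and the class of locally indicable groups fails. -/
theorem qtilde_ne : ∃ (G : Type u) (_ : Group G) (a b : G),
    Subgroup.closure {a, b} = ⊤ ∧ LocallyIndicable G ∧ ¬ Qtilde G := by
  have hB0 : B 0 ∈ F0 := Subgroup.subset_closure (by simp)
  have hB1 : B 1 ∈ F0 := Subgroup.subset_closure (by simp)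
  let e : ULift.{u} F0 ≃* F0 := MulEquiv.ulift
  refine ⟨ULift.{u} F0, inferInstance, e.symm ⟨B 0, hB0⟩, e.symm ⟨B 1, hB1⟩, ?_, ?_, ?_⟩
  · have h1 : Subgroup.closure ({⟨B 0, hB0⟩, ⟨B 1, hB1⟩} : Set F0) = ⊤ := by
      have h2 : Subgroup.closure ((Subtype.val : F0 → PL) ⁻¹' {B 0, B 1}) = ⊤ :=
        Subgroup.closure_closure_coe_preimage
      apply top_le_iff.mp
      refine h2.symm.le.trans (Subgroup.closure_mono ?_)
      rintro ⟨x, hx⟩ hx'
      simp only [Set.mem_preimage, Set.mem_insert_iff, Set.mem_singleton_iff] at hx' ⊢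
      rcases hx' with h | h
      · left; exact Subtype.ext h
      · right; exact Subtype.ext h
    have h3 := congrArg (Subgroup.map e.symm.toMonoidHom) h1
    rw [MonoidHom.map_closure, Set.image_pair, ← MonoidHom.range_eq_map,
      MonoidHom.range_eq_top.mpr e.symm.surjective] at h3
    exact h3
  · exact locallyIndicable_of_injective (F0.subtype.comp e.toMonoidHom)
      (F0.subtype_injective.comp e.injective)
  · intro hQ
    have hTC := TC_of_Qtilde _ hQ
    have hrel : Rel (e.symm ⟨B 0, hB0⟩) (e.symm ⟨B 1, hB1⟩) := by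
      apply Rel.of_map (F0.subtype.comp e.toMonoidHom) (F0.subtype_injective.comp e.injective)
      exact B_rel
    have hc := hTC _ _ hrel
    apply B_not_comm
    have := congrArg (F0.subtype.comp e.toMonoidHom) hc
    exact this

end Pool.Agent.Lib.MP_3b2c1c_al
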