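import Pool.Agent.Lib.MP_3b2c1c_al.Order

set_option autoImplicit false

/-!
A finitely generated right orderable group without nontrivial homomorphisms to `ℤ`: a group of
lifts of projective transformations to the universal cover of the projective line over `ℚ`, which
is modelled by the lexicographic product of `ℤ` and `ℚ` with a least element added.
-/

namespace Pool.Agent.Lib.MP_3b2c1c_al

universe u

/-- The universal cover of the projective line. -/
abbrev Om : Type := ℤ ×ₗ WithBot ℚ

instance : Countable Om := inferInstanceAs (Countable (ℤ × WithBot ℚ))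

/-- The point with coordinates `(k, x)`. -/
def pt (k : ℤ) (x : WithBot ℚ) : Om := toLex (k, x)

theorem pt_lt {k l : ℤ} {x y : WithBot ℚ} : pt k x < pt l y ↔ k < l ∨ k = l ∧ x < y :=
  Prod.Lex.toLex_lt_toLex

theorem om_cases (p : Om) : ∃ (k : ℤ), p = pt k ⊥ ∨ ∃ y : ℚ, p = pt k (y : WithBot ℚ) := by
  obtain ⟨k, x⟩ := p
  refine ⟨k, ?_⟩
  induction x using WithBot.recBotCoe with
  | bot => exact Or.inl rfl
  | coe y => exact Or.inr ⟨y, rfl⟩

/-- The translation `y ↦ y + 1`. -/
def vFun (p : Om) : Om := toLex ((ofLex p).1, (ofLex p).2.map (· + 1))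

/-- The dilation `y ↦ 2 y`. -/
def dFun (p : Om) : Om := toLex ((ofLex p).1, (ofLex p).2.map (2 * ·))

/-- The lift of `y ↦ - 1 / y`. -/
def jFun (p : Om) : Om :=
  match (ofLex p).2 with
  | ⊥ => pt (ofLex p).1 ((0 : ℚ) : WithBot ℚ)
  | (y : ℚ) => if y < 0 then pt (ofLex p).1 ((-y⁻¹ : ℚ) : WithBot ℚ)
      else if y = 0 then pt ((ofLex p).1 + 1) ⊥
      else pt ((ofLex p).1 + 1) ((-y⁻¹ : ℚ) : WithBot ℚ)

theorem vFun_bot (k : ℤ) : vFun (pt k ⊥) = pt k ⊥ := rfl
theorem vFun_coe (k : ℤ) (y : ℚ) : vFun (pt k y) = pt k ((y + 1 : ℚ) : WithBot ℚ) := rfl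
theorem dFun_bot (k : ℤ) : dFun (pt k ⊥) = pt k ⊥ := rfl
theorem dFun_coe (k : ℤ) (y : ℚ) : dFun (pt k y) = pt k ((2 * y : ℚ) : WithBot ℚ) := rfl
theorem jFun_bot (k : ℤ) : jFun (pt k ⊥) = pt k ((0 : ℚ) : WithBot ℚ) := rfl
theorem jFun_neg (k : ℤ) {y : ℚ} (hy : y < 0) :
    jFun (pt k y) = pt k ((-y⁻¹ : ℚ) : WithBot ℚ) := by
  change (if y < 0 then _ else _) = _
  rw [if_pos hy]
  rfl
theorem jFun_zero (k : ℤ) : jFun (pt k ((0 : ℚ) : WithBot ℚ)) = pt (k + 1) ⊥ := by
  change (if (0 : ℚ) < 0 then pt k ((-(0 : ℚ)⁻¹ : ℚ) : WithBot ℚ) else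
    if (0 : ℚ) = 0 then pt (k + 1) ⊥ else pt (k + 1) ((-(0 : ℚ)⁻¹ : ℚ) : WithBot ℚ)) = _
  rw [if_neg (lt_irrefl _), if_pos rfl]
theorem jFun_pos (k : ℤ) {y : ℚ} (hy : 0 < y) :
    jFun (pt k y) = pt (k + 1) ((-y⁻¹ : ℚ) : WithBot ℚ) := by
  change (if y < 0 then _ else _) = _
  rw [if_neg hy.le.not_gt, if_neg hy.ne']
  rfl

/-- The square of the map `jFun` is the shift. -/
theorem jFun_jFun (k : ℤ) (x : WithBot ℚ) : jFun (jFun (pt k x)) = pt (k + 1) x := by
  induction x using WithBot.recBotCoe with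
  | bot => rw [jFun_bot, jFun_zero]
  | coe y =>
    rcases lt_trichotomy y 0 with h | h | h
    · rw [jFun_neg k h, jFun_pos k (by
        rw [neg_pos]
        exact inv_lt_zero.2 h), inv_neg, inv_inv, neg_neg]
    · rw [h, jFun_zero, jFun_bot]
    · rw [jFun_pos k h, jFun_neg (k + 1) (by
        rw [neg_lt_zero]
        exact inv_pos.2 h), inv_neg, inv_inv, neg_neg]

theorem vFun_strictMono : StrictMono vFun := by
  intro p q hpq
  obtain ⟨k, x⟩ := p
  obtain ⟨l, y⟩ := q
  change pt k x < pt l y at hpq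
  change pt k (x.map (· + 1)) < pt l (y.map (· + 1))
  rw [pt_lt] at hpq ⊢
  rcases hpq with h | ⟨h, h'⟩
  · exact Or.inl h
  · exact Or.inr ⟨h, (WithBot.strictMono_map_iff.2 (fun a b hab => by
      simpa using hab)) h'⟩

theorem dFun_strictMono : StrictMono dFun := by
  intro p q hpq
  obtain ⟨k, x⟩ := p
  obtain ⟨l, y⟩ := q
  change pt k x < pt l y at hpq
  change pt k (x.map (2 * ·)) < pt l (y.map (2 * ·))
  rw [pt_lt] at hpq ⊢
  rcases hpq with h | ⟨h, h'⟩
  · exact Or.inl h
  · exact Or.inr ⟨h, (WithBot.strictMono_map_iff.2 (fun a b hab => by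
      change 2 * a < 2 * b
      linarith)) h'⟩

theorem jFun_strictMono : StrictMono jFun := by
  intro p q hpq
  obtain ⟨k, hp⟩ := om_cases p
  obtain ⟨l, hq⟩ := om_cases q
  have hb : ∀ z : ℚ, (⊥ : WithBot ℚ) < (z : WithBot ℚ) := WithBot.bot_lt_coe
  rcases hp with rfl | ⟨x, rfl⟩
  · rcases hq with rfl | ⟨y, rfl⟩
    · rw [pt_lt] at hpq
      rw [jFun_bot, jFun_bot, pt_lt]
      rcases hpq with h | ⟨_, h⟩
      · exact Or.inl h
      · exact absurd h (lt_irrefl _)
    · rw [pt_lt] at hpq
      rw [jFun_bot]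
      have hkl : k ≤ l := by
        rcases hpq with h | ⟨h, _⟩
        · exact h.le
        · exact h.le
      rcases lt_trichotomy y 0 with h | h | h
      · rw [jFun_neg l h, pt_lt, WithBot.coe_lt_coe]
        rcases hkl.lt_or_eq with h' | h'
        · exact Or.inl h'
        · exact Or.inr ⟨h', neg_pos.2 (inv_lt_zero.2 h)⟩
      · rw [h, jFun_zero, pt_lt]
        left; omega
      · rw [jFun_pos l h, pt_lt]
        left; omega
  · rcases hq with rfl | ⟨y, rfl⟩
    · rw [pt_lt] at hpq
      have hkl : k < l := by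
        rcases hpq with h | ⟨_, h⟩
        · exact h
        · exact absurd h (not_lt.2 bot_le)
      rw [jFun_bot]
      rcases lt_trichotomy x 0 with h | h | h
      · rw [jFun_neg k h, pt_lt]
        exact Or.inl hkl
      · rw [h, jFun_zero, pt_lt]
        rcases (show k + 1 ≤ l by omega).lt_or_eq with h' | h'
        · exact Or.inl h'
        · exact Or.inr ⟨h', hb 0⟩
      · rw [jFun_pos k h, pt_lt, WithBot.coe_lt_coe]
        rcases (show k + 1 ≤ l by omega).lt_or_eq with h' | h'
        · exact Or.inl h'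
        · exact Or.inr ⟨h', neg_lt_zero.2 (inv_pos.2 h)⟩
    · rw [pt_lt, WithBot.coe_lt_coe] at hpq
      rcases lt_trichotomy x 0 with hx | hx | hx
      · rw [jFun_neg k hx]
        rcases lt_trichotomy y 0 with h | h | h
        · rw [jFun_neg l h, pt_lt, WithBot.coe_lt_coe]
          rcases hpq with h' | ⟨h', hxy⟩
          · exact Or.inl h'
          · refine Or.inr ⟨h', ?_⟩
            rw [neg_lt_neg_iff]
            exact (inv_lt_inv_of_neg h hx).2 hxy
        · rw [h, jFun_zero, pt_lt]
          left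
          rcases hpq with h' | ⟨h', hxy⟩ <;> omega
        · rw [jFun_pos l h, pt_lt]
          left
          rcases hpq with h' | ⟨h', hxy⟩ <;> omega
      · rw [hx] at hpq ⊢
        rw [jFun_zero]
        rcases lt_trichotomy y 0 with h | h | h
        · have hkl : k < l := by
            rcases hpq with h' | ⟨_, h'⟩
            · exact h'
            · linarith
          rw [jFun_neg l h, pt_lt]
          rcases (show k + 1 ≤ l by omega).lt_or_eq with h' | h'
          · exact Or.inl h'
          · exact Or.inr ⟨h', hb _⟩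
        · have hkl : k < l := by
            rcases hpq with h' | ⟨_, h'⟩
            · exact h'
            · linarith
          rw [h, jFun_zero, pt_lt]
          left; omega
        · rw [jFun_pos l h, pt_lt]
          have hkl : k ≤ l := by
            rcases hpq with h' | ⟨h', _⟩
            · exact h'.le
            · exact h'.le
          rcases hkl.lt_or_eq with h' | h'
          · left; omega
          · exact Or.inr ⟨by omega, hb _⟩
      · rw [jFun_pos k hx]
        rcases lt_trichotomy y 0 with h | h | h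
        · have hkl : k < l := by
            rcases hpq with h' | ⟨_, h'⟩
            · exact h'
            · linarith
          rw [jFun_neg l h, pt_lt, WithBot.coe_lt_coe]
          rcases (show k + 1 ≤ l by omega).lt_or_eq with h' | h'
          · exact Or.inl h'
          · refine Or.inr ⟨h', ?_⟩
            have e1 : 0 < x⁻¹ := inv_pos.2 hx
            have e2 : y⁻¹ < 0 := inv_lt_zero.2 h
            linarith
        · have hkl : k < l := by
            rcases hpq with h' | ⟨_, h'⟩
            · exact h'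
            · linarith
          rw [h, jFun_zero, pt_lt]
          left; omega
        · rw [jFun_pos l h, pt_lt, WithBot.coe_lt_coe]
          rcases hpq with h' | ⟨h', hxy⟩
          · left; omega
          · refine Or.inr ⟨by omega, ?_⟩
            rw [neg_lt_neg_iff]
            exact (inv_lt_inv₀ h hx).2 hxy

/-- The translation as an automorphism. -/
noncomputable def gV : Om ≃o Om :=
  StrictMono.orderIsoOfSurjective vFun vFun_strictMono (by
    intro p
    obtain ⟨k, rfl | ⟨y, rfl⟩⟩ := om_cases p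
    · exact ⟨pt k ⊥, vFun_bot k⟩
    · refine ⟨pt k ((y - 1 : ℚ) : WithBot ℚ), ?_⟩
      rw [vFun_coe, sub_add_cancel])

/-- The dilation as an automorphism. -/
noncomputable def gD : Om ≃o Om :=
  StrictMono.orderIsoOfSurjective dFun dFun_strictMono (by
    intro p
    obtain ⟨k, rfl | ⟨y, rfl⟩⟩ := om_cases p
    · exact ⟨pt k ⊥, dFun_bot k⟩
    · refine ⟨pt k ((y / 2 : ℚ) : WithBot ℚ), ?_⟩
      rw [dFun_coe, mul_div_cancel₀ y two_ne_zero])

/-- The lift of `y ↦ - 1 / y` as an automorphism. -/
noncomputable def gJ : Om ≃o Om :=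
  StrictMono.orderIsoOfSurjective jFun jFun_strictMono (by
    intro p
    obtain ⟨k, x⟩ := p
    refine ⟨jFun (pt (k - 1) x), ?_⟩
    rw [jFun_jFun, sub_add_cancel]
    rfl)

theorem gV_apply (p : Om) : gV p = vFun p := rfl
theorem gD_apply (p : Om) : gD p = dFun p := rfl
theorem gJ_apply (p : Om) : gJ p = jFun p := rfl

theorem rel_DV : gD * gV = gV * gV * gD := by
  apply RelIso.ext
  intro p
  change dFun (vFun p) = vFun (vFun (dFun p))
  obtain ⟨k, rfl | ⟨y, rfl⟩⟩ := om_cases p
  · rw [vFun_bot, dFun_bot, vFun_bot, vFun_bot]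
  · rw [vFun_coe, dFun_coe, dFun_coe, vFun_coe, vFun_coe]
    congr 2
    ring

theorem rel_JD : gD * (gJ * gD) = gJ := by
  apply RelIso.ext
  intro p
  change dFun (jFun (dFun p)) = jFun p
  obtain ⟨k, rfl | ⟨y, rfl⟩⟩ := om_cases p
  · rw [dFun_bot, jFun_bot, dFun_coe, mul_zero]
  · rw [dFun_coe]
    rcases lt_trichotomy y 0 with h | h | h
    · rw [jFun_neg k h, jFun_neg k (by linarith), dFun_coe]
      congr 2
      rw [mul_inv]
      ring
    · rw [h, mul_zero, jFun_zero, dFun_bot]
    · rw [jFun_pos k h, jFun_pos k (by linarith), dFun_coe]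
      congr 2
      rw [mul_inv]
      ring

theorem rel_VJ : gV * (gJ * (gV * (gJ * gV))) = gJ * (gJ * gJ) := by
  apply RelIso.ext
  intro p
  change vFun (jFun (vFun (jFun (vFun p)))) = jFun (jFun (jFun p))
  obtain ⟨k, rfl | ⟨y, rfl⟩⟩ := om_cases p
  · rw [vFun_bot, jFun_bot, vFun_coe, jFun_pos k (by norm_num), vFun_coe, jFun_zero, jFun_bot]
    norm_num
  · rw [vFun_coe]
    rcases lt_trichotomy (y + 1) 0 with h | h | h
    · have hy : y < 0 := by linarith
      have e1 : 0 < -(y + 1)⁻¹ + 1 := by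
        have := inv_lt_zero.2 h
        linarith
      rw [jFun_neg k h, vFun_coe, jFun_pos k e1, vFun_coe, jFun_neg k hy, jFun_jFun]
      congr 2
      have h0 : y + 1 ≠ 0 := h.ne
      have e2 : -(y + 1)⁻¹ + 1 = y / (y + 1) := by
        field_simp
        ring
      rw [e2, inv_div]
      have hy0 : y ≠ 0 := hy.ne
      field_simp
      ring
    · have hy : y = -1 := by linarith
      subst hy
      rw [show (-1 : ℚ) + 1 = 0 by norm_num, jFun_zero, vFun_bot, jFun_bot, vFun_coe,
        jFun_neg k (by norm_num), jFun_jFun]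
      congr 2
      norm_num
    · rw [jFun_pos k h, vFun_coe]
      have h0 : y + 1 ≠ 0 := h.ne'
      have e2 : -(y + 1)⁻¹ + 1 = y / (y + 1) := by
        field_simp
        ring
      rw [e2]
      rcases lt_trichotomy y 0 with hy | hy | hy
      · rw [jFun_neg (k + 1) (div_neg_of_neg_of_pos hy h), vFun_coe, jFun_neg k hy, jFun_jFun,
          inv_div]
        congr 2
        have hy0 : y ≠ 0 := hy.ne
        field_simp
        ring
      · subst hy
        rw [zero_div, jFun_zero, vFun_bot, jFun_zero, jFun_bot, jFun_zero]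
      · rw [jFun_pos (k + 1) (div_pos hy h), vFun_coe, jFun_pos k hy, jFun_jFun, inv_div]
        congr 2
        have hy0 : y ≠ 0 := hy.ne'
        field_simp
        ring

/-- The group generated by the three automorphisms. -/
noncomputable def GL0 : Subgroup (Om ≃o Om) := Subgroup.closure {gV, gD, gJ}

theorem gV_ne_one : gV ≠ 1 := by
  intro h
  have h1 := congrArg (fun f : Om ≃o Om => f (pt 0 ((0 : ℚ) : WithBot ℚ))) h
  change vFun (pt 0 ((0 : ℚ) : WithBot ℚ)) = pt 0 ((0 : ℚ) : WithBot ℚ) at h1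
  rw [vFun_coe] at h1
  have h2 : ((0 + 1 : ℚ) : WithBot ℚ) = ((0 : ℚ) : WithBot ℚ) :=
    congrArg (fun p : Om => (ofLex p).2) h1
  rw [WithBot.coe_inj] at h2
  norm_num at h2

/-- The group has no nontrivial homomorphism to `ℤ`. -/
theorem hom_eq_one (f : GL0 →* Multiplicative ℤ) : f = 1 := by
  have hV : gV ∈ GL0 := Subgroup.subset_closure (by simp)
  have hD : gD ∈ GL0 := Subgroup.subset_closure (by simp)
  have hJ : gJ ∈ GL0 := Subgroup.subset_closure (by simp)
  let v : GL0 := ⟨gV, hV⟩
  let d : GL0 := ⟨gD, hD⟩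
  let j : GL0 := ⟨gJ, hJ⟩
  have r1 : d * v = v * v * d := Subtype.ext rel_DV
  have r2 : d * (j * d) = j := Subtype.ext rel_JD
  have r3 : v * (j * (v * (j * v))) = j * (j * j) := Subtype.ext rel_VJ
  have e1 := congrArg (fun x => Multiplicative.toAdd (f x)) r1
  have e2 := congrArg (fun x => Multiplicative.toAdd (f x)) r2
  have e3 := congrArg (fun x => Multiplicative.toAdd (f x)) r3
  simp only [map_mul, toAdd_mul] at e1 e2 e3
  have fv : f v = 1 := by
    apply Multiplicative.toAdd.injective
    rw [toAdd_one]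
    omega
  have fd : f d = 1 := by
    apply Multiplicative.toAdd.injective
    rw [toAdd_one]
    omega
  have fj : f j = 1 := by
    apply Multiplicative.toAdd.injective
    rw [toAdd_one]
    rw [fv, toAdd_one] at e3
    omega
  have hgen : Subgroup.closure ({v, d, j} : Set GL0) = ⊤ := by
    have h2 : Subgroup.closure ((Subtype.val : GL0 → (Om ≃o Om)) ⁻¹' {gV, gD, gJ}) = ⊤ :=
      Subgroup.closure_closure_coe_preimage
    apply top_le_iff.mp
    refine h2.symm.le.trans (Subgroup.closure_mono ?_)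
    rintro ⟨x, hx⟩ hx'
    simp only [Set.mem_preimage, Set.mem_insert_iff, Set.mem_singleton_iff] at hx' ⊢
    rcases hx' with h | h | h
    · left; exact Subtype.ext h
    · right; left; exact Subtype.ext h
    · right; right; exact Subtype.ext h
  refine MonoidHom.eq_of_eqOn_dense hgen ?_
  intro x hx
  simp only [Set.mem_insert_iff, Set.mem_singleton_iff] at hx
  rcases hx with rfl | rfl | rfl
  · exact fv
  · exact fd
  · exact fj

/-- There is a finitely generated nontrivial right orderable group all of whose homomorphisms to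
`ℤ` are trivial. -/
theorem exists_rightOrderable : ∃ (H : Type u) (_ : Group H), Group.FG H ∧ Nontrivial H ∧
    RightOrderable H ∧ (∀ f : H →* Multiplicative ℤ, f = 1) ∧ ¬ LocallyIndicable H := by
  let e : ULift.{u} GL0 ≃* GL0 := MulEquiv.ulift
  have hV : gV ∈ GL0 := Subgroup.subset_closure (by simp)
  have hfg0 : Group.FG GL0 := (Group.fg_iff_subgroup_fg GL0).mpr
    (Subgroup.fg_iff _ |>.mpr ⟨{gV, gD, gJ}, rfl, by simp⟩)
  have hfg : Group.FG (ULift.{u} GL0) := Group.fg_of_surjective (f := e.symm.toMonoidHom)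
    e.symm.surjective
  have hnt : Nontrivial (ULift.{u} GL0) := by
    refine ⟨⟨e.symm ⟨gV, hV⟩, 1, fun h => ?_⟩⟩
    have h1 : (⟨gV, hV⟩ : GL0) = 1 := by
      have := congrArg e h
      rwa [MulEquiv.apply_symm_apply, map_one] at this
    exact gV_ne_one (congrArg Subtype.val h1)
  have hhom : ∀ f : ULift.{u} GL0 →* Multiplicative ℤ, f = 1 := by
    intro f
    have h1 := hom_eq_one (f.comp e.symm.toMonoidHom)
    apply MonoidHom.ext
    intro x
    have h2 := DFunLike.congr_fun h1 (e x)
    simpa using h2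
  refine ⟨ULift.{u} GL0, inferInstance, hfg, hnt, ?_, hhom, ?_⟩
  · exact rightOrderable_of_action (GL0.subtype.comp e.toMonoidHom)
      (GL0.subtype_injective.comp e.injective)
  · intro hLI
    obtain ⟨f, hf⟩ := hLI ⊤ ((Group.fg_iff_subgroup_fg _).1 (by
      exact Group.fg_of_surjective (f := (Subgroup.topEquiv (G := ULift.{u} GL0)).symm.toMonoidHom)
        (Subgroup.topEquiv (G := ULift.{u} GL0)).symm.surjective)) (by
      intro h
      obtain ⟨x, hx⟩ := exists_ne (1 : ULift.{u} GL0)
      have hx' : x ∈ (⊤ : Subgroup (ULift.{u} GL0)) := Subgroup.mem_top x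
      rw [h, Subgroup.mem_bot] at hx'
      exact hx hx')
    obtain ⟨x, hx⟩ := hf (Multiplicative.ofAdd 1)
    have h1 := hhom (f.comp (Subgroup.topEquiv (G := ULift.{u} GL0)).symm.toMonoidHom)
    have h2 := DFunLike.congr_fun h1 (Subgroup.topEquiv x)
    simp only [MonoidHom.comp_apply, MulEquiv.coe_toMonoidHom, MulEquiv.symm_apply_apply, hx,
      MonoidHom.one_apply] at h2
    exact absurd (Multiplicative.ofAdd.injective h2) one_ne_zero

end Pool.Agent.Lib.MP_3b2c1c_al
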