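import Pool.Agent.Lib.MP_3b2c1c_al.Base

set_option autoImplicit false

/-!
Orders on groups: the group `PL` is bi-orderable; groups of automorphisms of a countable linear
order are right orderable.
-/

namespace Pool.Agent.Lib.MP_3b2c1c_al

universe u

/-- A group is right orderable if it carries a total order with `x < y → x * z < y * z`. -/
def RightOrderable (G : Type u) [Group G] : Prop :=
  ∃ o : LinearOrder G, ∀ x y z : G, o.lt x y → o.lt (x * z) (y * z)

/-- A group is bi-orderable if it carries a total order invariant under left and right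
multiplication. -/
def BiOrderable (G : Type u) [Group G] : Prop :=
  ∃ o : LinearOrder G, ∀ x y z : G, o.lt x y → o.lt (z * x) (z * y) ∧ o.lt (x * z) (y * z)

/-- A bi-order from a positive cone. -/
theorem biOrderable_of_cone {G : Type u} [Group G] (P : G → Prop) (h1 : ¬ P 1)
    (hmul : ∀ x y, P x → P y → P (x * y)) (hconj : ∀ x y, P x → P (y * x * y⁻¹))
    (htot : ∀ x, x ≠ 1 → P x ∨ P x⁻¹) : BiOrderable G := by
  classical
  let r : G → G → Prop := fun x y => P (x⁻¹ * y)
  have hirr : ∀ x, ¬ r x x := fun x h => by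
    apply h1
    simpa [r] using h
  have htrans : ∀ x y z, r x y → r y z → r x z := fun x y z hxy hyz => by
    have := hmul _ _ hxy hyz
    have e : x⁻¹ * y * (y⁻¹ * z) = x⁻¹ * z := by group
    rwa [e] at this
  have htri : ∀ x y, r x y ∨ x = y ∨ r y x := fun x y => by
    by_cases h : x = y
    · exact Or.inr (Or.inl h)
    · rcases htot (x⁻¹ * y) (fun h2 => h (inv_mul_eq_one.1 h2)) with h2 | h2
      · exact Or.inl h2
      · refine Or.inr (Or.inr ?_)
        have e : (x⁻¹ * y)⁻¹ = y⁻¹ * x := by group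
        rwa [e] at h2
  haveI : IsStrictTotalOrder G r :=
    { irrefl := hirr
      trans := htrans
      trichotomous := fun x y h1 h2 => by
        rcases htri x y with h | h | h
        · exact absurd h h1
        · exact h
        · exact absurd h h2 }
  refine ⟨linearOrderOfSTO r, fun x y z hxy => ⟨?_, ?_⟩⟩
  · have h : r x y := hxy
    change r (z * x) (z * y)
    have e : (z * x)⁻¹ * (z * y) = x⁻¹ * y := by group
    change P ((z * x)⁻¹ * (z * y))
    rwa [e]
  · have h : r x y := hxy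
    change P ((x * z)⁻¹ * (y * z))
    have e : (x * z)⁻¹ * (y * z) = z⁻¹ * (x⁻¹ * y) * z⁻¹⁻¹ := by group
    rw [e]
    exact hconj _ _ h

theorem BiOrderable.comap {G : Type u} {H : Type*} [Group G] [Group H] (f : G →* H)
    (hf : Function.Injective f) (h : BiOrderable H) : BiOrderable G := by
  obtain ⟨o, ho⟩ := h
  letI := o
  refine ⟨LinearOrder.lift' f hf, fun x y z hxy => ?_⟩
  have hxy' : f x < f y := hxy
  constructor
  · change f (z * x) < f (z * y)
    rw [map_mul, map_mul]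
    exact (ho _ _ _ hxy').1
  · change f (x * z) < f (y * z)
    rw [map_mul, map_mul]
    exact (ho _ _ _ hxy').2

/-- The positive elements of `PL`: the identity up to some point `p`, and moving the points
immediately to the right of `p` upwards. -/
def Pos (f : PL) : Prop :=
  ∃ p : ℝ, (∀ x ≤ p, (f : ℝ ≃o ℝ) x = x) ∧
    ∃ ε : ℝ, 0 < ε ∧ ∀ y, p < y → y < p + ε → y < (f : ℝ ≃o ℝ) y

theorem not_pos_one : ¬ Pos 1 := by
  rintro ⟨p, -, ε, hε, h⟩
  have h1 := h (p + ε / 2) (by linarith) (by linarith)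
  change p + ε / 2 < p + ε / 2 at h1
  exact lt_irrefl _ h1

theorem pos_mul (f g : PL) (hf : Pos f) (hg : Pos g) : Pos (f * g) := by
  obtain ⟨p, hp, ε, hε, h1⟩ := hf
  obtain ⟨q, hq, δ, hδ, h2⟩ := hg
  rcases lt_trichotomy p q with h | h | h
  · refine ⟨p, fun x hx => ?_, min ε (q - p), lt_min hε (by linarith), fun y hy hy' => ?_⟩
    · change (f : ℝ ≃o ℝ) ((g : ℝ ≃o ℝ) x) = x
      rw [hq x (by linarith), hp x hx]
    · change y < (f : ℝ ≃o ℝ) ((g : ℝ ≃o ℝ) y)
      rw [hq y (by linarith [min_le_right ε (q - p)])]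
      exact h1 y hy (by linarith [min_le_left ε (q - p)])
  · subst h
    refine ⟨p, fun x hx => ?_, min ε δ, lt_min hε hδ, fun y hy hy' => ?_⟩
    · change (f : ℝ ≃o ℝ) ((g : ℝ ≃o ℝ) x) = x
      rw [hq x hx, hp x hx]
    · change y < (f : ℝ ≃o ℝ) ((g : ℝ ≃o ℝ) y)
      have e1 := h1 y hy (by linarith [min_le_left ε δ])
      have e2 := h2 y hy (by linarith [min_le_right ε δ])
      exact e1.trans ((f : ℝ ≃o ℝ).strictMono e2)
  · have hgp : q < (g : ℝ ≃o ℝ).symm p := by
      rw [OrderIso.lt_symm_apply, hq q le_rfl]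
      exact h
    refine ⟨q, fun x hx => ?_, min δ ((g : ℝ ≃o ℝ).symm p - q), lt_min hδ (by linarith),
      fun y hy hy' => ?_⟩
    · change (f : ℝ ≃o ℝ) ((g : ℝ ≃o ℝ) x) = x
      rw [hq x hx, hp x (by linarith)]
    · change y < (f : ℝ ≃o ℝ) ((g : ℝ ≃o ℝ) y)
      have e1 : y < (g : ℝ ≃o ℝ).symm p := by
        linarith [min_le_right δ ((g : ℝ ≃o ℝ).symm p - q)]
      rw [OrderIso.lt_symm_apply] at e1
      rw [hp _ e1.le]
      exact h2 y hy (by linarith [min_le_left δ ((g : ℝ ≃o ℝ).symm p - q)])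

theorem pos_conj (f g : PL) (hf : Pos f) : Pos (g * f * g⁻¹) := by
  obtain ⟨p, hp, ε, hε, h1⟩ := hf
  have hv : ∀ x, ((g * f * g⁻¹ : PL) : ℝ ≃o ℝ) x =
      (g : ℝ ≃o ℝ) ((f : ℝ ≃o ℝ) ((g : ℝ ≃o ℝ).symm x)) := fun x => rfl
  refine ⟨(g : ℝ ≃o ℝ) p, fun x hx => ?_, (g : ℝ ≃o ℝ) (p + ε) - (g : ℝ ≃o ℝ) p,
    sub_pos.2 ((g : ℝ ≃o ℝ).strictMono (by linarith)), fun y hy hy' => ?_⟩
  · rw [hv, hp _ ((OrderIso.symm_apply_le _).2 hx), OrderIso.apply_symm_apply]
  · rw [hv]
    have e1 : p < (g : ℝ ≃o ℝ).symm y := (OrderIso.lt_symm_apply _).2 hy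
    have e2 : (g : ℝ ≃o ℝ).symm y < p + ε := (OrderIso.symm_apply_lt _).2 (by linarith)
    have e3 := (g : ℝ ≃o ℝ).strictMono (h1 _ e1 e2)
    rwa [OrderIso.apply_symm_apply] at e3

theorem pos_total (f : PL) (hf : f ≠ 1) : Pos f ∨ Pos f⁻¹ := by
  let X : Set ℝ := {x | (f : ℝ ≃o ℝ) x ≠ x}
  have hXne : X.Nonempty := by
    by_contra hcon
    rw [Set.not_nonempty_iff_eq_empty] at hcon
    apply hf
    apply Subtype.ext
    apply RelIso.ext
    intro x
    by_contra hx
    have : x ∈ X := hx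
    rw [hcon] at this
    exact this
  obtain ⟨M, hM⟩ := f.2.1
  have hXbdd : BddBelow X := by
    refine ⟨M, fun x hx => ?_⟩
    by_contra hcon
    push Not at hcon
    exact hx (hM x hcon.le)
  obtain ⟨p, hp⟩ : ∃ p, p = sInf X := ⟨_, rfl⟩
  have hlt : ∀ x < p, (f : ℝ ≃o ℝ) x = x := by
    intro x hx
    by_contra hcon
    have : p ≤ x := hp ▸ csInf_le hXbdd hcon
    linarith
  have hfix : (f : ℝ ≃o ℝ) p = p := by
    rcases lt_trichotomy ((f : ℝ ≃o ℝ) p) p with h | h | h
    · exfalso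
      obtain ⟨x, hx1, hx2⟩ := exists_between h
      have e1 := hlt x hx2
      have e2 : (f : ℝ ≃o ℝ) x < (f : ℝ ≃o ℝ) p := (f : ℝ ≃o ℝ).strictMono hx2
      rw [e1] at e2
      linarith
    · exact h
    · exfalso
      obtain ⟨y, hy1, hy2⟩ := exists_between h
      have e1 : (f : ℝ ≃o ℝ).symm y < p := by
        rw [OrderIso.symm_apply_lt]
        exact hy2
      have e2 := hlt _ e1
      rw [OrderIso.apply_symm_apply] at e2
      linarith
  have hle : ∀ x ≤ p, (f : ℝ ≃o ℝ) x = x := fun x hx => by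
    rcases hx.lt_or_eq with h | h
    · exact hlt x h
    · rw [h, hfix]
  obtain ⟨ε, hε, h1⟩ := slope_spec p f
  rw [hfix] at h1
  rcases lt_trichotomy (slope p f) 1 with h | h | h
  · right
    have hmono := (f : ℝ ≃o ℝ).strictMono (show p < p + ε by linarith)
    rw [hfix] at hmono
    refine ⟨p, fun x hx => ?_, (f : ℝ ≃o ℝ) (p + ε) - p, by linarith, fun y hy hy' => ?_⟩
    · change (f : ℝ ≃o ℝ).symm x = x
      rw [OrderIso.symm_apply_eq, hle x hx]
    · change y < (f : ℝ ≃o ℝ).symm y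
      have e1 : p < (f : ℝ ≃o ℝ).symm y := by
        rw [OrderIso.lt_symm_apply, hfix]
        exact hy
      have e2 : (f : ℝ ≃o ℝ).symm y < p + ε := (OrderIso.symm_apply_lt _).2 (by linarith)
      have e3 := h1 _ e1.le e2
      rw [OrderIso.apply_symm_apply] at e3
      have e4 : 0 < (1 - slope p f) * ((f : ℝ ≃o ℝ).symm y - p) :=
        mul_pos (by linarith) (by linarith)
      linarith
  · exfalso
    have : p + ε ≤ p := by
      conv_rhs => rw [hp]
      apply le_csInf hXne
      intro x hx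
      by_contra hcon
      push Not at hcon
      apply hx
      rcases lt_or_ge x p with h' | h'
      · exact hlt x h'
      · rw [h1 x h' hcon, h]
        ring
    linarith
  · left
    refine ⟨p, hle, ε, hε, fun y hy hy' => ?_⟩
    rw [h1 y hy.le hy']
    have e4 : 0 < (slope p f - 1) * (y - p) := mul_pos (by linarith) (by linarith)
    linarith

theorem biOrderable_PL : BiOrderable PL :=
  biOrderable_of_cone Pos not_pos_one pos_mul (fun f g hf => pos_conj f g hf) pos_total

/-- A group acting faithfully on a countable linear order is right orderable. -/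
theorem rightOrderable_of_action {G : Type u} [Group G] {Ω : Type} [LinearOrder Ω] [Countable Ω]
    [Nonempty Ω] (φ : G →* (Ω ≃o Ω)) (hφ : Function.Injective φ) : RightOrderable G := by
  obtain ⟨e, he⟩ := exists_surjective_nat Ω
  let F : G → Lex (ℕ → Ω) := fun g => toLex fun n => (φ g⁻¹) (e n)
  have hF : Function.Injective F := by
    intro g h hgh
    have h1 : (fun n => (φ g⁻¹) (e n)) = fun n => (φ h⁻¹) (e n) := toLex.injective hgh
    have h2 : φ g⁻¹ = φ h⁻¹ := by
      apply RelIso.ext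
      intro x
      obtain ⟨n, rfl⟩ := he x
      exact congrFun h1 n
    exact inv_injective (hφ h2)
  refine ⟨LinearOrder.lift' F hF, fun x y z hxy => ?_⟩
  have hxy' : F x < F y := hxy
  change F (x * z) < F (y * z)
  obtain ⟨n, hn1, hn2⟩ := hxy'
  have hv : ∀ a b : G, ∀ n, (φ (a * b)⁻¹) (e n) = (φ b⁻¹) ((φ a⁻¹) (e n)) := by
    intro a b n
    rw [mul_inv_rev, map_mul]
    rfl
  refine ⟨n, fun m hm => ?_, ?_⟩
  · change (φ (x * z)⁻¹) (e m) = (φ (y * z)⁻¹) (e m)
    rw [hv, hv]
    exact congrArg _ (hn1 m hm)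
  · change (φ (x * z)⁻¹) (e n) < (φ (y * z)⁻¹) (e n)
    rw [hv, hv]
    exact (φ z⁻¹).strictMono hn2

end Pool.Agent.Lib.MP_3b2c1c_al
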