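import Pool.Agent.Lib.MP_3b2c1c_al.Order

set_option autoImplicit false

/-!
Thompson's group `F`, given by its standard finite presentation, embeds in `PL`.
-/

namespace Pool.Agent.Lib.MP_3b2c1c_al

universe u

open FreeGroup in
/-- The two relators of the standard finite presentation of Thompson's group `F`: writing
`x₂ = x₀⁻¹ x₁ x₀`, `x₃ = x₀⁻² x₁ x₀²`, `x₄ = x₀⁻³ x₁ x₀³`, the relations are
`x₁⁻¹ x₂ x₁ = x₃` and `x₁⁻¹ x₃ x₁ = x₄`. -/
def thompsonRels : Set (FreeGroup (Fin 2)) :=
  {(of 1)⁻¹ * ((of 0)⁻¹ * of 1 * of 0) * of 1 * ((of 0)⁻¹ ^ 2 * of 1 * (of 0) ^ 2)⁻¹,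
   (of 1)⁻¹ * ((of 0)⁻¹ ^ 2 * of 1 * (of 0) ^ 2) * of 1 *
     ((of 0)⁻¹ ^ 3 * of 1 * (of 0) ^ 3)⁻¹}

/-- Thompson's group `F`. -/
abbrev ThompsonF : Type := PresentedGroup thompsonRels

/-- The elements `X 0 = a`, `X (n + 1) = aⁿ b a⁻ⁿ`. -/
def XX {G : Type*} [Group G] (a b : G) : ℕ → G
  | 0 => a
  | n + 1 => a ^ n * b * (a ^ n)⁻¹

section

variable {G : Type*} [Group G] {a b : G}

theorem BB_comm (h : Rel a b) (m : ℕ) :
    b * (a ^ (m + 1) * b * (a ^ (m + 1))⁻¹) = (a ^ (m + 2) * b * (a ^ (m + 2))⁻¹) * b := by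
  induction m using Nat.strong_induction_on with
  | _ m ih =>
    match m, ih with
    | 0, _ => simpa using h.1
    | 1, _ => exact h.2
    | m + 2, ih =>
      have h0 := ih m (by omega)
      have h1 := ih (m + 1) (by omega)
      have hb1 : b * (a * b * a⁻¹) = (a ^ 2 * b * (a ^ 2)⁻¹) * b := h.1
      -- conjugates of the statement for `m`
      have c1 : (a * b * a⁻¹) * (a ^ (m + 2) * b * (a ^ (m + 2))⁻¹) =
          (a ^ (m + 3) * b * (a ^ (m + 3))⁻¹) * (a * b * a⁻¹) := by
        have := congrArg (fun x => a * x * a⁻¹) h0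
        calc (a * b * a⁻¹) * (a ^ (m + 2) * b * (a ^ (m + 2))⁻¹)
            = a * (b * (a ^ (m + 1) * b * (a ^ (m + 1))⁻¹)) * a⁻¹ := by
              rw [pow_succ' a (m + 1)]; group
          _ = a * ((a ^ (m + 2) * b * (a ^ (m + 2))⁻¹) * b) * a⁻¹ := this
          _ = _ := by rw [pow_succ' a (m + 2)]; group
      have c2 : (a ^ 2 * b * (a ^ 2)⁻¹) * (a ^ (m + 3) * b * (a ^ (m + 3))⁻¹) =
          (a ^ (m + 4) * b * (a ^ (m + 4))⁻¹) * (a ^ 2 * b * (a ^ 2)⁻¹) := by
        have := congrArg (fun x => a * x * a⁻¹) c1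
        calc (a ^ 2 * b * (a ^ 2)⁻¹) * (a ^ (m + 3) * b * (a ^ (m + 3))⁻¹)
            = a * ((a * b * a⁻¹) * (a ^ (m + 2) * b * (a ^ (m + 2))⁻¹)) * a⁻¹ := by
              rw [pow_two, pow_succ' a (m + 2)]; group
          _ = a * ((a ^ (m + 3) * b * (a ^ (m + 3))⁻¹) * (a * b * a⁻¹)) * a⁻¹ := this
          _ = _ := by rw [pow_two, pow_succ' a (m + 3)]; group
      set b1 := a * b * a⁻¹ with hb1d
      set b2 := a ^ 2 * b * (a ^ 2)⁻¹ with hb2d
      set y2 := a ^ (m + 2) * b * (a ^ (m + 2))⁻¹ with hy2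
      set y3 := a ^ (m + 3) * b * (a ^ (m + 3))⁻¹ with hy3
      set y4 := a ^ (m + 4) * b * (a ^ (m + 4))⁻¹ with hy4
      have h1' : b * y2 = y3 * b := h1
      change b * y3 = y4 * b
      have e3 : y3 = b1 * y2 * b1⁻¹ := by rw [c1]; group
      have e4 : y4 = b2 * y3 * b2⁻¹ := by rw [c2]; group
      have e5 : b * b1 * b⁻¹ = b2 := by rw [hb1]; group
      have e6 : b * y2 * b⁻¹ = y3 := by rw [h1']; group
      calc b * y3 = b * (b1 * y2 * b1⁻¹) := by rw [← e3]
        _ = (b * b1 * b⁻¹) * (b * y2 * b⁻¹) * (b * b1 * b⁻¹)⁻¹ * b := by group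
        _ = b2 * y3 * b2⁻¹ * b := by rw [e5, e6]
        _ = y4 * b := by rw [← e4]

theorem XX_comm (h : Rel a b) {i j : ℕ} (hij : i < j) :
    XX a b i * XX a b j = XX a b (j + 1) * XX a b i := by
  obtain ⟨j, rfl⟩ : ∃ j', j = j' + 1 := ⟨j - 1, by omega⟩
  match i with
  | 0 =>
    change a * (a ^ j * b * (a ^ j)⁻¹) = (a ^ (j + 1) * b * (a ^ (j + 1))⁻¹) * a
    rw [pow_succ' a j]
    group
  | i + 1 =>
    obtain ⟨m, rfl⟩ : ∃ m, j = i + (m + 1) := ⟨j - i - 1, by omega⟩
    change (a ^ i * b * (a ^ i)⁻¹) * (a ^ (i + (m + 1)) * b * (a ^ (i + (m + 1)))⁻¹) =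
      (a ^ (i + (m + 1) + 1) * b * (a ^ (i + (m + 1) + 1))⁻¹) * (a ^ i * b * (a ^ i)⁻¹)
    have h1 := BB_comm h m
    calc (a ^ i * b * (a ^ i)⁻¹) * (a ^ (i + (m + 1)) * b * (a ^ (i + (m + 1)))⁻¹)
        = a ^ i * (b * (a ^ (m + 1) * b * (a ^ (m + 1))⁻¹)) * (a ^ i)⁻¹ := by
          rw [pow_add a i (m + 1)]; group
      _ = a ^ i * ((a ^ (m + 2) * b * (a ^ (m + 2))⁻¹) * b) * (a ^ i)⁻¹ := by rw [h1]
      _ = _ := by
          rw [show i + (m + 1) + 1 = i + (m + 2) by ring, pow_add a i (m + 2)]; group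

/-- The value of a positive word; the head of the list is the rightmost factor. -/
def ev (a b : G) : List ℕ → G
  | [] => 1
  | i :: l => ev a b l * XX a b i

theorem ev_append (l m : List ℕ) : ev a b (l ++ m) = ev a b m * ev a b l := by
  induction l with
  | nil => simp [ev]
  | cons i l ih => rw [List.cons_append, ev, ev, ih, mul_assoc]

/-- Sorting a word: multiplication on the right by the generator `j`. -/
def ins (j : ℕ) : List ℕ → List ℕ
  | [] => [j]
  | i :: l => if j ≤ i then j :: i :: l else i :: ins (j + 1) l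

theorem ev_ins (h : Rel a b) (l : List ℕ) (j : ℕ) : ev a b (ins j l) = ev a b l * XX a b j := by
  induction l generalizing j with
  | nil => rfl
  | cons i l ih =>
    unfold ins
    split_ifs with hji
    · rfl
    · push Not at hji
      rw [ev, ih, ev, mul_assoc, mul_assoc, XX_comm h hji]

theorem le_ins {k : ℕ} {l : List ℕ} {j : ℕ} (hk : k ≤ j) (hl : ∀ i ∈ l, k ≤ i) :
    ∀ i ∈ ins j l, k ≤ i := by
  induction l generalizing j with
  | nil => simpa [ins] using hk
  | cons i l ih =>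
    unfold ins
    split_ifs with hji
    · intro x hx
      rcases List.mem_cons.1 hx with rfl | hx
      · exact hk
      · exact hl x hx
    · intro x hx
      rcases List.mem_cons.1 hx with rfl | hx
      · exact hl _ (List.mem_cons_self ..)
      · exact ih (by omega) (fun y hy => hl y (List.mem_cons_of_mem _ hy)) x hx

theorem sorted_ins {l : List ℕ} (hl : l.Pairwise (· ≤ ·)) (j : ℕ) :
    (ins j l).Pairwise (· ≤ ·) := by
  induction l generalizing j with
  | nil => simp [ins]
  | cons i l ih =>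
    rw [List.pairwise_cons] at hl
    unfold ins
    split_ifs with hji
    · rw [List.pairwise_cons]
      refine ⟨fun x hx => ?_, List.pairwise_cons.2 hl⟩
      rcases List.mem_cons.1 hx with rfl | hx
      · exact hji
      · exact hji.trans (hl.1 x hx)
    · push Not at hji
      rw [List.pairwise_cons]
      exact ⟨le_ins (by omega) hl.1, ih hl.2 _⟩

/-- Every positive word has the same value as a sorted one. -/
theorem exists_sorted (h : Rel a b) (l : List ℕ) :
    ∃ l' : List ℕ, l'.Pairwise (· ≤ ·) ∧ ev a b l' = ev a b l := by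
  induction l with
  | nil => exact ⟨[], List.Pairwise.nil, rfl⟩
  | cons i l ih =>
    obtain ⟨l', h1, h2⟩ := ih
    exact ⟨ins i l', sorted_ins h1 i, by rw [ev_ins h, h2, ev]⟩

theorem ev_mul_inv (h : Rel a b) (l : List ℕ) (i : ℕ) :
    ∃ (q p : List ℕ), ev a b l * (XX a b i)⁻¹ = (ev a b q)⁻¹ * ev a b p := by
  induction l generalizing i with
  | nil => exact ⟨[i], [], by simp [ev]⟩
  | cons j l ih =>
    rcases lt_trichotomy j i with hji | hji | hji
    · -- `X j * (X i)⁻¹ = (X (i+1))⁻¹ * X j`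
      have h1 := XX_comm h hji
      have h2 : XX a b j * (XX a b i)⁻¹ = (XX a b (i + 1))⁻¹ * XX a b j := by
        rw [mul_inv_eq_iff_eq_mul, mul_assoc, h1]
        group
      obtain ⟨q, p, hqp⟩ := ih (i + 1)
      refine ⟨q, j :: p, ?_⟩
      rw [ev, ev, mul_assoc, h2, ← mul_assoc, hqp, mul_assoc]
    · subst hji
      exact ⟨[], l, by simp [ev]⟩
    · have h1 := XX_comm h hji
      have h2 : XX a b j * (XX a b i)⁻¹ = (XX a b i)⁻¹ * XX a b (j + 1) := by
        rw [mul_inv_eq_iff_eq_mul, mul_assoc, ← h1]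
        group
      obtain ⟨q, p, hqp⟩ := ih i
      refine ⟨q, (j + 1) :: p, ?_⟩
      rw [ev, ev, mul_assoc, h2, ← mul_assoc, hqp, mul_assoc]

/-- Every element of a group generated by `a`, `b` is a fraction of positive words. -/
theorem exists_fraction (h : Rel a b) (g : G) (hg : g ∈ Subgroup.closure ({a, b} : Set G)) :
    ∃ (q p : List ℕ), g = (ev a b q)⁻¹ * ev a b p := by
  have hX0 : XX a b 0 = a := rfl
  have hX1 : XX a b 1 = b := by
    change a ^ 0 * b * (a ^ 0)⁻¹ = b
    simp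
  have hpos : ∀ (g : G) (i : ℕ), (∃ (q p : List ℕ), g = (ev a b q)⁻¹ * ev a b p) →
      ∃ (q p : List ℕ), g * XX a b i = (ev a b q)⁻¹ * ev a b p := by
    rintro g i ⟨q, p, rfl⟩
    exact ⟨q, i :: p, by rw [ev, mul_assoc]⟩
  have hneg : ∀ (g : G) (i : ℕ), (∃ (q p : List ℕ), g = (ev a b q)⁻¹ * ev a b p) →
      ∃ (q p : List ℕ), g * (XX a b i)⁻¹ = (ev a b q)⁻¹ * ev a b p := by
    rintro g i ⟨q, p, rfl⟩
    obtain ⟨q', p', hqp⟩ := ev_mul_inv h p i
    refine ⟨q ++ q', p', ?_⟩
    rw [mul_assoc, hqp, ev_append, mul_inv_rev, mul_assoc]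
  induction hg using Subgroup.closure_induction_right with
  | one => exact ⟨[], [], by simp [ev]⟩
  | mul_right x hx y hy ih =>
    rcases hy with rfl | hy
    · exact hpos x 0 ih
    · rw [Set.mem_singleton_iff] at hy
      subst hy
      have := hpos x 1 ih
      rwa [hX1] at this
  | mul_inv_cancel x hx y hy ih =>
    rcases hy with rfl | hy
    · exact hneg x 0 ih
    · rw [Set.mem_singleton_iff] at hy
      subst hy
      have := hneg x 1 ih
      rwa [hX1] at this

end

/-! ### Faithfulness -/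

theorem XX_B (n : ℕ) : XX (B 0) (B 1) n = B n := by
  match n with
  | 0 =>
    change B 0 = B ((0 : ℕ) : ℝ)
    rw [Nat.cast_zero]
  | n + 1 =>
    change (B 0) ^ n * B 1 * ((B 0) ^ n)⁻¹ = B ((n + 1 : ℕ) : ℝ)
    induction n with
    | zero => simp
    | succ n ih =>
      have e : (B 0) ^ (n + 1) * B 1 * ((B 0) ^ (n + 1))⁻¹ =
          B 0 * ((B 0) ^ n * B 1 * ((B 0) ^ n)⁻¹) * (B 0)⁻¹ := by
        rw [pow_succ' (B 0) n]
        group
      rw [e, ih, B_conj 0 _ (by push_cast; linarith [(Nat.cast_nonneg n : (0 : ℝ) ≤ n)])]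
      push_cast
      rfl

theorem slope_B_self (k : ℝ) : slope k (B k) = 2 := by
  apply slope_unique
  refine ⟨1, one_pos, fun y h1 h2 => ?_⟩
  change bFun k y = bFun k k + 2 * (y - k)
  rw [bFun_of_mid h1 h2.le, bFun_of_le le_rfl]

theorem slope_B_lt {k i : ℝ} (h : k < i) : slope k (B i) = 1 := by
  apply slope_unique
  refine ⟨i - k, by linarith, fun y h1 h2 => ?_⟩
  change bFun i y = bFun i k + 1 * (y - k)
  rw [bFun_of_le h.le, bFun_of_le (by linarith)]
  ring

theorem slope_one (k : ℝ) : slope k (1 : PL) = 1 :=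
  slope_unique k _ 1 ⟨1, one_pos, fun y _ _ => by
    change y = k + 1 * (y - k)
    ring⟩

theorem slope_ev (k : ℕ) (l : List ℕ) (hl : ∀ i ∈ l, k ≤ i) :
    slope (k : ℝ) (ev (B 0) (B 1) l) = 2 ^ l.count k := by
  induction l with
  | nil =>
    rw [List.count_nil, pow_zero]
    exact slope_one _
  | cons i l ih =>
    have ih' := ih fun j hj => hl j (List.mem_cons_of_mem _ hj)
    have hki : k ≤ i := hl i (List.mem_cons_self ..)
    have hfix : ((B i : PL) : ℝ ≃o ℝ) (k : ℝ) = k :=
      bFun_of_le (c := (i : ℝ)) (x := (k : ℝ)) (by exact_mod_cast hki)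
    rw [ev, XX_B, slope_mul _ _ _ hfix, ih']
    rcases hki.eq_or_lt with h | h
    · subst h
      rw [slope_B_self, List.count_cons_self, pow_succ]
    · rw [slope_B_lt (by exact_mod_cast h), mul_one, List.count_cons_of_ne (by omega)]

theorem ev_injective_aux : ∀ (l m : List ℕ), l.Pairwise (· ≤ ·) → m.Pairwise (· ≤ ·) →
    ev (B 0) (B 1) l = ev (B 0) (B 1) m → l = m := by
  intro l
  induction l with
  | nil =>
    intro m _ hm h
    cases m with
    | nil => rfl
    | cons j m =>
      exfalso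
      rw [List.pairwise_cons] at hm
      have h1 := slope_ev j (j :: m) (fun i hi => by
        rcases List.mem_cons.1 hi with rfl | hi
        · exact le_rfl
        · exact hm.1 i hi)
      rw [← h] at h1
      have h2 : slope (j : ℝ) (ev (B 0) (B 1) []) = 1 := slope_one _
      rw [h2, List.count_cons_self] at h1
      have h3 : (1 : ℝ) < 2 ^ (m.count j + 1) := one_lt_pow₀ (by norm_num) (by omega)
      linarith
  | cons i l ih =>
    intro m hl hm h
    have hl' := List.pairwise_cons.1 hl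
    have hli : ∀ x ∈ i :: l, i ≤ x := fun x hx => by
      rcases List.mem_cons.1 hx with rfl | hx
      · exact le_rfl
      · exact hl'.1 x hx
    have h1 := slope_ev i (i :: l) hli
    cases m with
    | nil =>
      exfalso
      rw [h] at h1
      have h2 : slope (i : ℝ) (ev (B 0) (B 1) []) = 1 := slope_one _
      rw [h2, List.count_cons_self] at h1
      have h3 : (1 : ℝ) < 2 ^ (l.count i + 1) := one_lt_pow₀ (by norm_num) (by omega)
      linarith
    | cons j m =>
      have hm' := List.pairwise_cons.1 hm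
      have hmj : ∀ x ∈ j :: m, j ≤ x := fun x hx => by
        rcases List.mem_cons.1 hx with rfl | hx
        · exact le_rfl
        · exact hm'.1 x hx
      rcases lt_trichotomy i j with hij | hij | hij
      · exfalso
        have h2 := slope_ev i (j :: m) (fun x hx => hij.le.trans (hmj x hx))
        have hc : (j :: m).count i = 0 := List.count_eq_zero_of_not_mem (fun hx => by
          have := hmj i hx
          omega)
        rw [← h, h1, hc, List.count_cons_self, pow_zero] at h2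
        have h3 : (1 : ℝ) < 2 ^ (l.count i + 1) := one_lt_pow₀ (by norm_num) (by omega)
        linarith
      · subst hij
        have h2 : ev (B 0) (B 1) l = ev (B 0) (B 1) m := by
          rw [ev, ev] at h
          exact mul_right_cancel h
        rw [ih m hl'.2 hm'.2 h2]
      · exfalso
        have h2 := slope_ev j (j :: m) hmj
        have h4 := slope_ev j (i :: l) (fun x hx => hij.le.trans (hli x hx))
        have hc : (i :: l).count j = 0 := List.count_eq_zero_of_not_mem (fun hx => by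
          have := hli j hx
          omega)
        rw [h, h2, hc, List.count_cons_self, pow_zero] at h4
        have h3 : (1 : ℝ) < 2 ^ (m.count j + 1) := one_lt_pow₀ (by norm_num) (by omega)
        linarith

/-! ### The embedding -/

/-- The generators of Thompson's group, inverted. -/
def tA : ThompsonF := (PresentedGroup.of 0)⁻¹

/-- The generators of Thompson's group, inverted. -/
def tB : ThompsonF := (PresentedGroup.of 1)⁻¹

theorem rel_thompson : Rel tA tB := by
  have h1 := PresentedGroup.one_of_mem (rels := thompsonRels)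
    (x := (FreeGroup.of 1)⁻¹ * ((FreeGroup.of 0)⁻¹ * FreeGroup.of 1 * FreeGroup.of 0) *
      FreeGroup.of 1 * ((FreeGroup.of 0)⁻¹ ^ 2 * FreeGroup.of 1 * (FreeGroup.of 0) ^ 2)⁻¹)
    (Or.inl rfl)
  have h2 := PresentedGroup.one_of_mem (rels := thompsonRels)
    (x := (FreeGroup.of 1)⁻¹ * ((FreeGroup.of 0)⁻¹ ^ 2 * FreeGroup.of 1 * (FreeGroup.of 0) ^ 2) *
      FreeGroup.of 1 * ((FreeGroup.of 0)⁻¹ ^ 3 * FreeGroup.of 1 * (FreeGroup.of 0) ^ 3)⁻¹)
    (Or.inr rfl)
  simp only [map_mul, map_inv, map_pow] at h1 h2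
  set x : ThompsonF := PresentedGroup.mk thompsonRels (FreeGroup.of 0) with hx
  set y : ThompsonF := PresentedGroup.mk thompsonRels (FreeGroup.of 1) with hy
  have hA : tA = x⁻¹ := rfl
  have hB : tB = y⁻¹ := rfl
  rw [mul_inv_eq_one] at h1 h2
  constructor
  · rw [hA, hB]
    have h3 := congrArg (fun z => z⁻¹ * y⁻¹) h1
    calc y⁻¹ * (x⁻¹ * y⁻¹ * x⁻¹⁻¹) = (y⁻¹ * (x⁻¹ * y * x) * y)⁻¹ * y⁻¹ := by group
      _ = (x⁻¹ ^ 2 * y * x ^ 2)⁻¹ * y⁻¹ := h3
      _ = _ := by group
  · rw [hA, hB]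
    have h3 := congrArg (fun z => z⁻¹ * y⁻¹) h2
    calc y⁻¹ * (x⁻¹ ^ 2 * y⁻¹ * (x⁻¹ ^ 2)⁻¹) = (y⁻¹ * (x⁻¹ ^ 2 * y * x ^ 2) * y)⁻¹ * y⁻¹ := by
          group
      _ = (x⁻¹ ^ 3 * y * x ^ 3)⁻¹ * y⁻¹ := h3
      _ = _ := by group

theorem closure_thompson : Subgroup.closure ({tA, tB} : Set ThompsonF) = ⊤ := by
  rw [eq_top_iff, ← PresentedGroup.closure_range_of thompsonRels, Subgroup.closure_le]
  rintro _ ⟨i, rfl⟩
  have hA : tA ∈ Subgroup.closure ({tA, tB} : Set ThompsonF) :=
    Subgroup.subset_closure (by simp)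
  have hB : tB ∈ Subgroup.closure ({tA, tB} : Set ThompsonF) :=
    Subgroup.subset_closure (by simp)
  fin_cases i
  · have := Subgroup.inv_mem _ hA
    simpa [tA] using this
  · have := Subgroup.inv_mem _ hB
    simpa [tB] using this

theorem rels_PL (r : FreeGroup (Fin 2)) (hr : r ∈ thompsonRels) :
    FreeGroup.lift (fun i : Fin 2 => if i = 0 then (B 0)⁻¹ else (B 1)⁻¹) r = 1 := by
  obtain ⟨h1, h2⟩ := B_rel
  rcases hr with rfl | hr
  · simp only [map_mul, map_inv, map_pow, FreeGroup.lift_apply_of, if_true, one_ne_zero,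
      if_false]
    rw [mul_inv_eq_one, ← inv_inj]
    have h3 := congrArg (fun z => z * (B 1)⁻¹) h1
    calc _ = B 1 * (B 0 * B 1 * (B 0)⁻¹) * (B 1)⁻¹ := by group
      _ = B 0 ^ 2 * B 1 * (B 0 ^ 2)⁻¹ * B 1 * (B 1)⁻¹ := h3
      _ = _ := by group
  · rw [Set.mem_singleton_iff] at hr
    subst hr
    simp only [map_mul, map_inv, map_pow, FreeGroup.lift_apply_of, if_true, one_ne_zero,
      if_false]
    rw [mul_inv_eq_one, ← inv_inj]
    have h3 := congrArg (fun z => z * (B 1)⁻¹) h2
    calc _ = B 1 * (B 0 ^ 2 * B 1 * (B 0 ^ 2)⁻¹) * (B 1)⁻¹ := by group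
      _ = B 0 ^ 3 * B 1 * (B 0 ^ 3)⁻¹ * B 1 * (B 1)⁻¹ := h3
      _ = _ := by group

/-- The homomorphism of Thompson's group to `PL`. -/
noncomputable def toPL : ThompsonF →* PL := PresentedGroup.toGroup rels_PL

theorem toPL_A : toPL tA = B 0 := by
  unfold toPL tA
  rw [map_inv, PresentedGroup.toGroup.of]
  simp

theorem toPL_B : toPL tB = B 1 := by
  unfold toPL tB
  rw [map_inv, PresentedGroup.toGroup.of]
  simp

theorem map_XX {G H : Type*} [Group G] [Group H] (f : G →* H) (a b : G) (n : ℕ) :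
    f (XX a b n) = XX (f a) (f b) n := by
  cases n with
  | zero => rfl
  | succ n =>
    change f (a ^ n * b * (a ^ n)⁻¹) = (f a) ^ n * f b * ((f a) ^ n)⁻¹
    simp only [map_mul, map_inv, map_pow]

theorem map_ev {G H : Type*} [Group G] [Group H] (f : G →* H) (a b : G) (l : List ℕ) :
    f (ev a b l) = ev (f a) (f b) l := by
  induction l with
  | nil => exact map_one f
  | cons i l ih => rw [ev, map_mul, ih, map_XX, ev]

theorem toPL_injective : Function.Injective toPL := by
  rw [injective_iff_map_eq_one]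
  intro g hg
  obtain ⟨q, p, rfl⟩ := exists_fraction rel_thompson g (by
    rw [closure_thompson]
    exact Subgroup.mem_top g)
  obtain ⟨q', hq1, hq2⟩ := exists_sorted rel_thompson q
  obtain ⟨p', hp1, hp2⟩ := exists_sorted rel_thompson p
  rw [← hq2, ← hp2] at hg ⊢
  rw [map_mul, map_inv, map_ev, map_ev, toPL_A, toPL_B, inv_mul_eq_one] at hg
  rw [ev_injective_aux q' p' hq1 hp1 hg]
  exact inv_mul_cancel _

theorem thompson_biOrderable : BiOrderable ThompsonF :=
  BiOrderable.comap toPL toPL_injective biOrderable_PL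

theorem thompson_locallyIndicable : LocallyIndicable ThompsonF :=
  locallyIndicable_of_injective toPL toPL_injective

theorem thompson_biOrderable_ulift : BiOrderable (ULift.{u} ThompsonF) :=
  BiOrderable.comap (MulEquiv.ulift : ULift.{u} ThompsonF ≃* ThompsonF).toMonoidHom
    MulEquiv.ulift.injective thompson_biOrderable

theorem thompson_locallyIndicable_ulift : LocallyIndicable (ULift.{u} ThompsonF) :=
  locallyIndicable_of_injective
    (toPL.comp (MulEquiv.ulift : ULift.{u} ThompsonF ≃* ThompsonF).toMonoidHom)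
    (toPL_injective.comp MulEquiv.ulift.injective)

/-- Thompson's group `F` does not belong to Brodskii's quasivariety (in any universe). -/
theorem thompson_not_qtilde : ¬ Qtilde (ULift.{u} ThompsonF) := by
  intro hQ
  have hTC := TC_of_Qtilde _ hQ
  let e : ULift.{u} ThompsonF ≃* ThompsonF := MulEquiv.ulift
  have hrel : Rel (e.symm tA) (e.symm tB) := by
    apply Rel.of_map e.toMonoidHom e.injective
    exact rel_thompson
  have hc := hTC _ _ hrel
  apply B_not_comm
  have := congrArg (toPL.comp e.toMonoidHom) hc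
  rw [map_mul, map_mul] at this
  change toPL tA * toPL tB = toPL tB * toPL tA at this
  rwa [toPL_A, toPL_B] at this

end Pool.Agent.Lib.MP_3b2c1c_al
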